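import Pool.Agent.U192.PN.Norm

/-!
Norms of pluricanonical forms: the Kodaira dimension of pairs.
-/

set_option autoImplicit false
set_option linter.overlappingInstances false
set_option linter.unusedSectionVars false

open FF Pool.Agent.W602.GT Pool.Agent.W603.LV Pool.Agent.W619.PQ Pool.Agent.Y172
open Pool.Agent.Y174 (PairSec PairKod PairNum IsPull IsPullFib LiesOn)

namespace Pool.Agent.U192.PN

open Pool.Agent.U192.NM (der_norm det_one' pow_form pow_form_pluri)

section

variable {K M L Ω : Type} [Field K] [Field M] [Field L]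
  [Field Ω] [Algebra ℂ K] [Algebra ℂ M] [Algebra ℂ L] [Algebra ℂ Ω] [Algebra K M] [Algebra K L]
  [Algebra K Ω] [Algebra M L] [Algebra M Ω] [Algebra L Ω]
  [IsScalarTower ℂ K M] [IsScalarTower ℂ K L] [IsScalarTower ℂ K Ω] [IsScalarTower ℂ M L]
  [IsScalarTower ℂ M Ω] [IsScalarTower ℂ L Ω]
  [IsScalarTower K M L] [IsScalarTower K M Ω] [IsScalarTower K L Ω] [IsScalarTower M L Ω]
  [FiniteDimensional K M] [FiniteDimensional K L] [FiniteDimensional K Ω] [IsGalois K Ω]
  [Algebra.EssFiniteType ℂ K] [Algebra.EssFiniteType ℂ L]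

/-- the form `t (dy) ^ N` has order at least `-c` at `P` if its value on a regular frame has -/
theorem pow_form_ge {n N : ℕ} {y : Fin n → K} {t : K} {P : Place ℂ K} {yP : Fin n → K}
    {DP : Fin n → Derivation ℂ K K} {i0 : Fin n} (hl : Loc P yP DP i0) {c : ℝ}
    (h : pow_form N y t DP = 0 ∨ c ≤ P.ord (pow_form N y t DP)) (G : Fin n → Derivation ℂ K K)
    (hG : ∀ i, DerReg P (G i)) : pow_form N y t G = 0 ∨ c ≤ P.ord (pow_form N y t G) := by
  have h1 := pluri_coord hl.bas hl.dual (pow_form_pluri N y t) G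
  rw [h1]
  by_cases h0 : (Matrix.of fun i j => G i (yP j) : Matrix (Fin n) (Fin n) K).det ^ N *
      pow_form N y t DP = 0
  · exact Or.inl h0
  right
  have h2 : Ge P 0 (Matrix.of fun i j => G i (yP j) : Matrix (Fin n) (Fin n) K).det :=
    Pool.Agent.W619.PQ.ge_det P _ fun i j => hG i _ (hl.reg j)
  have h3 := (h2.pow N).resolve_left (left_ne_zero_of_mul h0)
  rw [mul_zero] at h3
  have h4 := h.resolve_left (right_ne_zero_of_mul h0)
  rw [P.ord_mul (left_ne_zero_of_mul h0) (right_ne_zero_of_mul h0)]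
  push_cast
  have h5 : (0 : ℝ) ≤
      (P.ord ((Matrix.of fun i j => G i (yP j) : Matrix (Fin n) (Fin n) K).det ^ N) : ℝ) := by
    exact_mod_cast h3
  linarith

variable (Ω) in
include Ω in
/-- **The Kodaira dimension through norms.** -/
theorem kod_of_norm {δ : Place ℂ K → ℝ} {d : ℕ} (f : Module.Basis (Fin d) K M)
    (E : IntermediateField ℂ L)
    {n m a : ℕ} (hm : 1 ≤ m) (hn : Algebra.trdeg ℂ L = n)
    (hfE : ∀ j, algebraMap M L (f j) ∈ E) {θ : (Fin n → Derivation ℂ L L) → L}
    (hθ : IsPluri m θ) (hθ0 : ∃ G, θ G ≠ 0) (hh : HorReg δ E n m θ)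
    {ι : Type} (γ : ι → L) (hγE : ∀ i, γ i ∈ E) (hγ0 : ∀ i, γ i ≠ 0)
    (hv : ∀ i, VertReg δ E M n m (fun j => algebraMap M L (f j)) θ (γ i))
    {N : ℕ} (x : Fin N → L)
    (ha : Algebra.trdeg ℂ (IntermediateField.adjoin ℂ (Set.range x)) = a)
    (i1 : ι) {s : ℕ} (hs : 1 ≤ s)
    (hx : ∀ j, ∀ c : ℂ, algebraMap ℂ L c - x j ≠ 0 → ∃ i, γ i = γ i1 * (algebraMap ℂ L c - x j) ^ s) :
    PairKod ℂ K n δ a := by
  classical
  have hcK : CharZero K := charZero_of_injective_algebraMap (algebraMap ℂ K).injective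
  have hcΩ : CharZero Ω := charZero_of_injective_algebraMap (algebraMap ℂ Ω).injective
  have hfdL : FiniteDimensional L Ω := FiniteDimensional.right K L Ω
  have hnK : Algebra.trdeg ℂ K = n := Pool.Agent.Y184.NT.trdeg_below (K := L) hn
  obtain ⟨ε, c0, hε0, hreg⟩ := norm_reg (k := ℂ) (K := K) (M := M) (L := L) (Ω := Ω) f
  obtain ⟨y, D, hy, hD⟩ := exists_crd hnK
  choose D' hD' using fun i => exists_lift (L := L) hnK (D i)
  have hyL : IsTranscendenceBasis ℂ (fun j => algebraMap K L (y j)) := hy.algebraMap_comp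
  have hDL := lift_dual hD hD'
  have hθD : θ D' ≠ 0 := by
    obtain ⟨G, hG⟩ := hθ0
    intro h0
    apply hG
    rw [pluri_coord hyL hDL hθ G, h0, mul_zero]
  obtain ⟨q, hq⟩ : ∃ q : ℕ, q = Module.finrank K Ω := ⟨_, rfl⟩
  have hq1 : 1 ≤ q := by
    rw [hq]
    exact Module.finrank_pos
  obtain ⟨T, hT⟩ : ∃ T : ι → K, ∀ i, T i =
      Algebra.norm K (algebraMap L Ω (γ i * θ D')) * ε ^ (m * c0) := ⟨_, fun _ => rfl⟩
  have hT0 : ∀ i, T i ≠ 0 := by
    intro i
    rw [hT]
    refine mul_ne_zero ?_ (pow_ne_zero _ hε0)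
    rw [Ne, Algebra.norm_eq_zero_iff, map_eq_zero]
    exact mul_ne_zero (hγ0 i) hθD
  -- regularity
  have hTreg : ∀ i, ∀ P : Place ℂ K, Divisorial n P → ∀ G : Fin n → Derivation ℂ K K,
      (∀ i, DerReg P (G i)) → pow_form (m * q) y (T i) G = 0 ∨
        -(((m * q : ℕ) : ℝ) * δ P) ≤ P.ord (pow_form (m * q) y (T i) G) := by
    intro i P hP
    obtain ⟨yP, DP, i0, hl⟩ := exists_loc hnK hP
    refine pow_form_ge hl ?_
    choose DP' hDP' using fun i => exists_lift (L := L) hnK (DP i)
    obtain ⟨B, hB⟩ : ∃ B : Matrix (Fin n) (Fin n) K, B = Matrix.of fun i j => DP i (y j) :=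
      ⟨_, rfl⟩
    have h1 : θ DP' = algebraMap K L (B.det ^ m) * θ D' := by
      rw [pluri_coord hyL hDL hθ DP', map_pow, RingHom.map_det]
      congr 3
      rw [hB]
      ext i j
      rw [Matrix.of_apply, RingHom.mapMatrix_apply, Matrix.map_apply, Matrix.of_apply]
      exact hDP' i (y j)
    have hdualP := lift_dual hl.dual hDP'
    have hθP : θ DP' ≠ 0 := by
      intro h0
      apply hθD
      rw [pluri_coord (hl.bas.algebraMap_comp (A := L)) hdualP hθ D', h0, mul_zero]
    have h2 := hreg δ E n m hn hfE θ hθ hh (γ i) (hγ0 i) (hγE i) (hv i) P hP yP DP i0 hl DP' hDP'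
      hθP
    have h3 : pow_form (m * q) y (T i) DP =
        Algebra.norm K (algebraMap L Ω (γ i * θ DP')) * ε ^ (m * c0) := by
      have h4 : algebraMap L Ω (γ i * θ DP') =
          algebraMap K Ω (B.det ^ m) * algebraMap L Ω (γ i * θ D') := by
        rw [h1, IsScalarTower.algebraMap_apply K L Ω, ← map_mul]
        congr 1
        ring
      have h5 : Algebra.norm K (algebraMap K Ω (B.det ^ m) * algebraMap L Ω (γ i * θ D')) =
          (B.det ^ m) ^ q * Algebra.norm K (algebraMap L Ω (γ i * θ D')) := by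
        rw [MonoidHom.map_mul, Algebra.norm_algebraMap, ← hq]
      rw [pow_form, ← hB, hT, h4, h5, ← pow_mul, mul_assoc]
    rw [h3, hq]
    exact Or.inr h2
  -- the ratios
  obtain ⟨s', hs0, hind⟩ := Pool.Agent.R882.LT.exists_ratios_d (L := K) (K := L) (d := a) hnK ha T
    ⟨i1, hT0 i1⟩ (fun G hG G' hG' j => by
      obtain ⟨G'', hG''⟩ := exists_lift (L := Ω) hn G'
      have h1 : G'' (algebraMap L Ω (x j)) = 0 := by
        refine der_norm (K := K) G'' _ fun c => ?_
        have hGK : ∀ z : K, G'' (algebraMap K Ω z) = algebraMap K Ω (G z) := by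
          intro z
          rw [IsScalarTower.algebraMap_apply K L Ω, hG'', hG',
            ← IsScalarTower.algebraMap_apply K L Ω]
        rw [hGK]
        by_cases h0 : algebraMap ℂ L c - x j = 0
        · have h2 : algebraMap ℂ Ω c - algebraMap L Ω (x j) = 0 := by
            rw [IsScalarTower.algebraMap_apply ℂ L Ω, ← map_sub, h0, map_zero]
          rw [h2, Algebra.norm_zero, map_zero, map_zero]
        · obtain ⟨i, hi⟩ := hx j c h0
          have h2 : T i = T i1 * (Algebra.norm K (algebraMap ℂ Ω c - algebraMap L Ω (x j))) ^ s := by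
            rw [hT, hT, hi]
            have h3 : algebraMap L Ω (γ i1 * (algebraMap ℂ L c - x j) ^ s * θ D') =
                algebraMap L Ω (γ i1 * θ D') * (algebraMap ℂ Ω c - algebraMap L Ω (x j)) ^ s := by
              rw [IsScalarTower.algebraMap_apply ℂ L Ω, ← map_sub, ← map_pow, ← map_mul]
              congr 1
              ring
            rw [h3, map_mul, map_pow]
            ring
          obtain ⟨u, hu⟩ : ∃ u, u = Algebra.norm K (algebraMap ℂ Ω c - algebraMap L Ω (x j)) :=
            ⟨_, rfl⟩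
          rw [← hu] at h2 ⊢
          have hu0 : u ≠ 0 := by
            rw [hu, Ne, Algebra.norm_eq_zero_iff, IsScalarTower.algebraMap_apply ℂ L Ω, ← map_sub,
              map_eq_zero]
            exact h0
          have h3 := hG i1 i
          rw [h2, G.leibniz, G.leibniz_pow] at h3
          simp only [smul_eq_mul, nsmul_eq_mul] at h3
          have h4 : T i1 ^ 2 * (s * u ^ (s - 1)) * G u = 0 := by linear_combination h3
          have h5 : T i1 ^ 2 * (s * u ^ (s - 1)) ≠ 0 := by
            refine mul_ne_zero (pow_ne_zero _ (hT0 i1)) (mul_ne_zero ?_ (pow_ne_zero _ hu0))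
            exact_mod_cast (by omega : s ≠ 0)
          have h6 := (mul_eq_zero.1 h4).resolve_left h5
          rw [h6, map_zero]
      rw [hG''] at h1
      exact (map_eq_zero _).1 h1)
  have hval : ∀ t, pow_form (m * q) y t D = t := by
    intro t
    rw [pow_form, det_one' hD, one_pow, one_mul]
  refine ⟨m * q, Nat.mul_pos hm hq1, fun j => pow_form (m * q) y (T (s' j)), fun l =>
    ⟨pow_form_pluri _ y _, fun P hP G hG => ?_⟩, D, fun l => ?_, ?_⟩
  · rcases hTreg (s' l) P hP G hG with h | h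
    · exact Or.inl h
    · refine Or.inr ⟨1, Finset.mem_singleton_self _, one_ne_zero, ?_⟩
      simp only [Nat.cast_zero, zero_mul, zero_sub]
      exact h
  · change pow_form (m * q) y (T (s' l)) D ≠ 0
    rw [hval]
    exact hT0 _
  · simp only [hval]
    exact hind

end

end Pool.Agent.U192.PN
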