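import Pool.Agent.U192.NM.Hor
import Pool.Agent.U192.PN.Form
import Pool.Agent.Y174.B6

/-!
Norms of pluricanonical forms: the ramification of a generically finite map from a fibre space with
fibres of numerical dimension zero. Pairs.
-/

set_option autoImplicit false
set_option linter.overlappingInstances false
set_option linter.unusedSectionVars false

open FF Pool.Agent.W602.GT Pool.Agent.W603.LV Pool.Agent.W619.PQ Pool.Agent.Y172
open Pool.Agent.W619.TW (HasIndep)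
open Pool.Agent.Y174 (PairSec PairKod PairNum IsPull IsPullFib LiesOn)

namespace Pool.Agent.U192.PN

open Pool.Agent.U192.NM (indep_of_ord)

section

variable (k L : Type) [Field k] [Field L] [Algebra k L]

/-- `ν (K_V + Δ) = -∞`, that is, `K_V + Δ` is not pseudo-effective: for every divisor `A` (generated by
a finite set `S` of functions) `m (K_V + Δ) + A` has no nonzero section for all large `m`. -/
def PairNeg (n : ℕ) (δ : Place k L → ℝ) : Prop :=
  ∀ S : Finset L, ∃ m0 : ℕ, ∀ m : ℕ, m0 ≤ m → ¬ HasIndep k L n 1 (PairSec k L n δ S m 1)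

end

section

variable {k L : Type} [Field k] [Field L] [Algebra k L]

/-- the form is a section of `m (K + Δ)` -/
def PReg (n m : ℕ) (δ : Place k L → ℝ) (θ : (Fin n → Derivation k L L) → L) : Prop :=
  ∀ Q : Place k L, Divisorial n Q → ∀ G : Fin n → Derivation k L L, (∀ i, DerReg Q (G i)) →
    θ G = 0 ∨ -(m * δ Q) ≤ (Q.ord (θ G) : ℝ)

theorem pairSec_mono {n m j : ℕ} {δ δ' : Place k L → ℝ} (hle : ∀ Q, Divisorial n Q → δ Q ≤ δ' Q)
    {S : Finset L} {s : (Fin n → Derivation k L L) → L} (hs : PairSec k L n δ S m j s) :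
    PairSec k L n δ' S m j s := by
  refine ⟨hs.1, fun Q hQ G hG => ?_⟩
  rcases hs.2 Q hQ G hG with h | ⟨z, hz, hz0, h⟩
  · exact Or.inl h
  · refine Or.inr ⟨z, hz, hz0, le_trans ?_ h⟩
    have h1 := mul_le_mul_of_nonneg_left (hle Q hQ) (Nat.cast_nonneg (α := ℝ) m)
    linarith

/-- powers of sections, times powers of a section -/
theorem pair_pow_mul {n m m0 q : ℕ} {δ : Place k L → ℝ} {S : Finset L}
    {s θ : (Fin n → Derivation k L L) → L}
    (hs : PairSec k L n δ S m 1 s) (hθ : IsPluri m0 θ)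
    (hreg : PReg n m0 δ θ) {r : ℕ} (hr : r ≠ 0)
    [DecidableEq L] : PairSec k L n δ (S.image fun z => z ^ r) (m * r + m0 * q) 1
      (fun G => s G ^ r * θ G ^ q) := by
  refine ⟨?_, fun Q hQ G hG => ?_⟩
  · intro A G
    have h1 : s (fun i => ∑ j, A i j • G j) = A.det ^ m * s G := hs.1 A G
    have h2 : θ (fun i => ∑ j, A i j • G j) = A.det ^ m0 * θ G := hθ A G
    change s _ ^ r * θ _ ^ q = _
    rw [h1, h2, pow_add, mul_pow, mul_pow, ← pow_mul, ← pow_mul]
    ring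
  · by_cases h0 : s G ^ r * θ G ^ q = 0
    · exact Or.inl h0
    right
    have h1 : s G ^ r ≠ 0 := left_ne_zero_of_mul h0
    have h2 : θ G ^ q ≠ 0 := right_ne_zero_of_mul h0
    have hs0 : s G ≠ 0 := fun h => h1 (by rw [h, zero_pow hr])
    have h3 : (q : ℝ) * -(m0 * δ Q) ≤ q * Q.ord (θ G) := by
      rcases Nat.eq_zero_or_pos q with h | h
      · rw [h]
        simp
      · have hθ0 : θ G ≠ 0 := fun h' => h2 (by rw [h', zero_pow (by omega)])
        exact mul_le_mul_of_nonneg_left ((hreg Q hQ G hG).resolve_left hθ0) (Nat.cast_nonneg _)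
    obtain ⟨z, hz, hz0, hle⟩ := (hs.2 Q hQ G hG).resolve_left hs0
    refine ⟨z ^ r, Finset.mem_image.2 ⟨z, hz, rfl⟩, pow_ne_zero _ hz0, ?_⟩
    rw [Q.ord_mul h1 h2, Q.ord_pow, Q.ord_pow, Q.ord_pow]
    have h4 := mul_le_mul_of_nonneg_left hle (Nat.cast_nonneg (α := ℝ) r)
    push_cast at h4 ⊢
    linarith

theorem not_pairNeg {n : ℕ} {δ : Place k L → ℝ} (h : ¬ PairNeg k L n δ) :
    ∃ S : Finset L, ∀ m1 : ℕ, ∃ m ≥ m1, ∃ s : (Fin n → Derivation k L L) → L,
      PairSec k L n δ S m 1 s ∧ s ≠ 0 := by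
  unfold PairNeg at h
  push Not at h
  obtain ⟨S, hS⟩ := h
  refine ⟨S, fun m1 => ?_⟩
  obtain ⟨m, hm, ω, hli, hω⟩ := hS m1
  exact ⟨m, hm, ω 0, hω 0, hli.ne_zero 0⟩

end

section

variable {K L Λ F : Type} [Field K] [Field L] [Field Λ] [Field F] [Algebra ℂ K] [Algebra ℂ L]
  [Algebra K L] [IsScalarTower ℂ K L] [FiniteDimensional K L]
  [Algebra.EssFiniteType ℂ K] [Algebra.EssFiniteType ℂ L] (E : IntermediateField ℂ L)
  [Algebra E Λ] [Algebra Λ F] [Algebra L F] [IsScalarTower E Λ F] [IsScalarTower E L F]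
  [Algebra ℂ Λ] [Algebra ℂ F] [IsScalarTower ℂ Λ F] [IsScalarTower ℂ L F]
  [IsScalarTower ℂ E Λ]

/-- **The ramification.** Let `L` be the function field of the total space of a fibration with the
base `E` and the geometric generic fibre `F`, such that the restriction of the boundary to `F` has
numerical dimension at most `0`, and let `θ` be a form which is a section over general points of the
base. If `K` is the function field of a variety dominated by the total space, with a boundary whose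
numerical dimension is not `-∞`, then `θ` vanishes along the horizontal ramification divisors. Here
the boundary of the total space is at least the pull-back. -/
theorem horReg_ge {d r m0 : ℕ} (hE : Algebra.trdeg ℂ E = d)
    (hn : Algebra.trdeg ℂ L = (d + (r + 1) : ℕ)) [Algebra.IsAlgebraic E Λ]
    (hgenF : IntermediateField.adjoin Λ (Set.range (algebraMap L F)) = ⊤)
    (hcl : ∀ z : L, IsAlgebraic E z → z ∈ E)
    {δ : Place ℂ K → ℝ} {δV : Place ℂ L → ℝ} {δF : Place Λ F → ℝ}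
    (hδV : ∀ (P : Place ℂ K) (Q : Place ℂ L) (e : ℕ), Over Q P e → Divisorial (d + (r + 1)) Q →
      max 0 (1 - e * (1 - δ P)) ≤ δV Q)
    (hδF : IsPullFib δV δF) (hnum : PairNum Λ F (r + 1) δF 0)
    (hK : ¬ PairNeg ℂ K (d + (r + 1)) δ) (hm0 : 1 ≤ m0)
    {θ : (Fin (d + (r + 1)) → Derivation ℂ L L) → L} (hθ : IsPluri m0 θ)
    (hreg : PReg (d + (r + 1)) m0 δV θ) :
    HorReg δ E (d + (r + 1)) m0 θ := by
  classical
  intro P Q e hQ hQd hEQ G hG
  have hΛ0 : CharZero Λ := charZero_of_injective_algebraMap (algebraMap ℂ Λ).injective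
  by_contra hcon
  push Not at hcon
  obtain ⟨hθG, hlt⟩ := hcon
  obtain ⟨n, hnn⟩ : ∃ n, n = d + (r + 1) := ⟨_, rfl⟩
  have hnL : Algebra.trdeg ℂ L = n := by rw [hnn]; exact hn
  have hnK : Algebra.trdeg ℂ K = n := Pool.Agent.Y184.NT.trdeg_below (K := L) hnL
  subst hnn
  have hP : Divisorial (d + (r + 1)) P := divisorial_down hQ hQd
  obtain ⟨yP, DP, i0, hl⟩ := exists_loc hnK hP
  have he0 : (0 : ℝ) ≤ e := Nat.cast_nonneg _
  obtain ⟨η, hη⟩ : ∃ η : ℝ, η = (m0 : ℝ) * (e - 1) - m0 * e * δ P - Q.ord (θ G) := ⟨_, rfl⟩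
  have hη0 : 0 < η := by
    rw [hη]
    linarith
  -- the frame of the fibration
  have hessK : Algebra.EssFiniteType ℂ K := inferInstance
  have hess : Algebra.EssFiniteType ℂ L := inferInstance
  have hLK := Pool.Agent.Y174.trdeg_LK (L := E) hE hn
  obtain ⟨t, ht⟩ := Pool.Agent.W636.PG.exists_basis ℂ E d hE
  obtain ⟨x, hx⟩ := Pool.Agent.W636.PG.exists_basis E L (r + 1) hLK
  have hZ := Pool.Agent.Y174.basis_append ht hx
  obtain ⟨D0, hD0⟩ := Pool.Agent.W636.PG.exists_duals ℂ L (d + (r + 1)) _ hZ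
  -- the sections on `K`
  have hsec : ∃ S : Finset K, ∀ m1 : ℕ, ∃ m ≥ m1,
      ∃ s : (Fin (d + (r + 1)) → Derivation ℂ K K) → K,
      PairSec ℂ K (d + (r + 1)) δ S m 1 s ∧ s DP ≠ 0 := by
    obtain ⟨S, hS⟩ := not_pairNeg hK
    refine ⟨S, fun m1 => ?_⟩
    obtain ⟨m, hm, s, hs, hs0⟩ := hS m1
    refine ⟨m, hm, s, hs, fun h0 => hs0 ?_⟩
    funext D
    rw [Pi.zero_apply, pluri_coord hl.bas hl.dual hs.1 D, h0, mul_zero]
  obtain ⟨S, hS⟩ := hsec
  obtain ⟨A, hA⟩ : ∃ A : ℤ, ∀ z ∈ S, -A ≤ P.ord z := by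
    refine ⟨∑ z ∈ S, |P.ord z|, fun z hz => ?_⟩
    have h1 := Finset.single_le_sum (f := fun z => |P.ord z|) (fun i _ => abs_nonneg _) hz
    have h2 := neg_abs_le (P.ord z)
    linarith
  obtain ⟨S', hS'⟩ : ∃ S' : Finset L, S' = S.image (algebraMap K L) := ⟨_, rfl⟩
  obtain ⟨S'', hS''⟩ : ∃ S'' : Finset L, S'' = S'.image fun z => z ^ m0 := ⟨_, rfl⟩
  obtain ⟨C, hC⟩ := Pool.Agent.Y174.fib_count (Λ := Λ) (F := F) hess hgenF
    (fun z hz => ⟨⟨z, hcl z hz.isAlgebraic⟩, rfl⟩) hE hn ht hx hD0 hδF hnum S''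
  -- the pull-backs
  obtain ⟨pb, hpb⟩ : ∃ pb : ℕ → ((Fin (d + (r + 1)) → Derivation ℂ K K) → K) →
      (Fin (d + (r + 1)) → Derivation ℂ L L) → L, ∀ m s D, pb m s D =
        (Matrix.of fun a b => D a (algebraMap K L (yP b)) :
          Matrix (Fin (d + (r + 1))) (Fin (d + (r + 1))) L).det ^ m * algebraMap K L (s DP) :=
    ⟨fun m s D => _, fun _ _ _ => rfl⟩
  have hpull : ∀ m s, PairSec ℂ K (d + (r + 1)) δ S m 1 s →
      PairSec ℂ L (d + (r + 1)) δV S' m 1 (pb m s) := by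
    intro m s hs
    obtain ⟨δ0, hδ0⟩ := Pool.Agent.Y174.exists_pull (K := K) (L := L) δ
    have h0 := Pool.Agent.Y174.pair_pull hessK hnK hδ0 yP DP hl.bas hl.dual hs
    have h1 := pairSec_mono (δ' := δV) (fun Q' hQ' => by
      obtain ⟨e', P', hP'⟩ := Pool.Agent.W73.PG.PULL.exists_over' (K := K) Q'
      rw [hδ0 P' Q' e' hP']
      exact hδV P' Q' e' hP' hQ') h0
    rw [← hS'] at h1
    have h3 : pb m s = fun D => (Matrix.of fun a b => D a (algebraMap K L (yP b)) :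
          Matrix (Fin (d + (r + 1))) (Fin (d + (r + 1))) L).det ^ m * algebraMap K L (s DP) := by
      funext D
      exact hpb m s D
    rw [h3]
    exact h1
  -- the determinant is not zero
  choose DP' hDP' using fun i => exists_lift (L := L) hnK (DP i)
  have hdualP := lift_dual hl.dual hDP'
  have hdet : (Matrix.of fun a b => G a (algebraMap K L (yP b)) :
      Matrix (Fin (d + (r + 1))) (Fin (d + (r + 1))) L).det ≠ 0 := by
    intro h0
    apply hθG
    rw [pluri_coord (hl.bas.algebraMap_comp (A := L)) hdualP hθ G]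
    have h1 : (Matrix.of fun i j => G i ((algebraMap K L ∘ yP) j) :
      Matrix (Fin (d + (r + 1))) (Fin (d + (r + 1))) L).det = 0 := h0
    rw [h1, zero_pow (by omega), zero_mul]
  obtain ⟨κ, hκ⟩ : ∃ κ, κ = (Matrix.of fun i j => G i
      ((Fin.append (algebraMap E L ∘ t) x : Fin (d + (r + 1)) → L) j) :
      Matrix (Fin (d + (r + 1))) (Fin (d + (r + 1))) L).det := ⟨_, rfl⟩
  have hcoord : ∀ (N : ℕ) (ω : (Fin (d + (r + 1)) → Derivation ℂ L L) → L), IsPluri N ω →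
      ω G = κ ^ N * ω D0 := by
    intro N ω hω
    rw [hκ]
    exact pluri_coord hZ hD0 hω G
  -- the orders
  obtain ⟨w, hw⟩ : ∃ w : ℕ → ((Fin (d + (r + 1)) → Derivation ℂ K K) → K) → ℤ,
      ∀ m s, w m s = m0 * Q.ord (pb m s G) - m * Q.ord (θ G) := ⟨_, fun _ _ => rfl⟩
  have hwlow : ∀ m s, PairSec ℂ K (d + (r + 1)) δ S m 1 s → s DP ≠ 0 →
      (m : ℝ) * η - m0 * (e * A) ≤ w m s := by
    intro m s hs hs0
    have h1 : -(A : ℝ) - m * δ P ≤ P.ord (s DP) := by
      obtain ⟨z, hz, hz0, hle⟩ := (hs.2 P hP DP hl.pres).resolve_left hs0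
      have h2 : -(A : ℝ) ≤ P.ord z := by exact_mod_cast hA z hz
      push_cast at hle
      linarith
    have h2 := pull_reg (m := m) (b := P.ord (s DP)) hQ hl hG (ω := s) (Or.inr le_rfl)
    rw [← hpb] at h2
    have h3 : pb m s G ≠ 0 := by
      rw [hpb]
      exact mul_ne_zero (pow_ne_zero _ hdet) (by rwa [Ne, map_eq_zero])
    have h4 := h2.resolve_left h3
    have h4r : (m : ℝ) * (e - 1) + e * (P.ord (s DP) : ℝ) ≤ Q.ord (pb m s G) := by
      exact_mod_cast h4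
    have h5 := mul_le_mul_of_nonneg_left h4r (Nat.cast_nonneg (α := ℝ) m0)
    have h6 := mul_le_mul_of_nonneg_left (mul_le_mul_of_nonneg_left h1 he0)
      (Nat.cast_nonneg (α := ℝ) m0)
    rw [hw, hη]
    push_cast
    linarith
  obtain ⟨Mm, hMm⟩ : ∃ Mm : Set ℕ, Mm = {m | 1 ≤ m ∧ ∃ s : (Fin (d + (r + 1)) →
      Derivation ℂ K K) → K, PairSec ℂ K (d + (r + 1)) δ S m 1 s ∧ s DP ≠ 0} :=
    ⟨_, rfl⟩
  have hchoice : ∀ m, ∃ s : (Fin (d + (r + 1)) → Derivation ℂ K K) → K, m ∈ Mm →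
      PairSec ℂ K (d + (r + 1)) δ S m 1 s ∧ s DP ≠ 0 := by
    intro m
    by_cases h : m ∈ Mm
    · rw [hMm] at h
      obtain ⟨-, s, hs⟩ := h
      exact ⟨s, fun _ => hs⟩
    · exact ⟨0, fun h' => absurd h' h⟩
  choose s hs using hchoice
  have hinf : ((fun m => w m (s m)) '' Mm).Infinite := by
    intro hfin
    obtain ⟨U, hU⟩ := hfin.bddAbove
    obtain ⟨B, hB⟩ := exists_nat_gt (((U : ℝ) + m0 * (e * A)) / η)
    obtain ⟨m, hm, s1, hs1, hs10⟩ := hS (max 1 B)
    have hmM : m ∈ Mm := by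
      rw [hMm]
      exact ⟨le_trans (le_max_left _ _) hm, s1, hs1, hs10⟩
    have h1 := hwlow m (s m) (hs m hmM).1 (hs m hmM).2
    have h2 : w m (s m) ≤ U := hU ⟨m, hmM, rfl⟩
    have h2r : (w m (s m) : ℝ) ≤ U := by exact_mod_cast h2
    have h3 : (B : ℝ) ≤ m := by exact_mod_cast le_trans (le_max_right _ _) hm
    have h4 : ((U : ℝ) + m0 * (e * A)) < m * η := by
      rw [div_lt_iff₀ hη0] at hB
      exact hB.trans_le (mul_le_mul_of_nonneg_right h3 hη0.le)
    linarith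
  obtain ⟨T, hT, hTc⟩ := hinf.exists_subset_card_eq (C + 1)
  let ε : Fin (C + 1) ≃ T := (T.equivFinOfCardEq hTc).symm
  have hpre : ∀ i : Fin (C + 1), ∃ m ∈ Mm, w m (s m) = (ε i : ℤ) := fun i => hT (ε i).2
  choose μ hμ hwμ using hpre
  obtain ⟨N, hN⟩ : ∃ N, N = ∑ i, μ i := ⟨_, rfl⟩
  have hμN : ∀ i, μ i ≤ N := by
    intro i
    rw [hN]
    exact Finset.single_le_sum (f := μ) (fun _ _ => Nat.zero_le _) (Finset.mem_univ i)
  have hμ1 : ∀ i, 1 ≤ μ i := by
    intro i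
    have h1 := hμ i
    rw [hMm] at h1
    exact h1.1
  have hN1 : 1 ≤ N := le_trans (hμ1 0) (hμN 0)
  obtain ⟨ω, hω⟩ : ∃ ω : Fin (C + 1) → (Fin (d + (r + 1)) → Derivation ℂ L L) → L,
      ∀ i, ω i = fun D => pb (μ i) (s (μ i)) D ^ m0 * (θ D) ^ (N - μ i) :=
    ⟨_, fun _ => rfl⟩
  have hωsec : ∀ i, PairSec ℂ L (d + (r + 1)) δV S'' (m0 * N) 1 (ω i) := by
    intro i
    have h1 := pair_pow_mul (q := N - μ i) (hpull _ _ (hs (μ i) (hμ i)).1) hθ hreg
      (r := m0) (by omega)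
    have h2 : μ i * m0 + m0 * (N - μ i) = m0 * N := by
      rw [mul_comm (μ i) m0, ← mul_add, Nat.add_sub_cancel' (hμN i)]
    rw [h2, ← hS'', ← hω] at h1
    exact h1
  have hrk := hC (m0 * N) (C + 1) (Nat.mul_pos hm0 hN1) ω hωsec
  rw [pow_zero, mul_one] at hrk
  have hpb0 : ∀ i, pb (μ i) (s (μ i)) G ≠ 0 := by
    intro i
    rw [hpb]
    exact mul_ne_zero (pow_ne_zero _ hdet) (by
      rw [Ne, map_eq_zero]
      exact (hs (μ i) (hμ i)).2)
  have hωG : ∀ i, ω i G ≠ 0 ∧ Q.ord (ω i G) = (ε i : ℤ) + N * Q.ord (θ G) := by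
    intro i
    rw [hω]
    refine ⟨mul_ne_zero (pow_ne_zero _ (hpb0 i)) (pow_ne_zero _ hθG), ?_⟩
    rw [Q.ord_mul (pow_ne_zero _ (hpb0 i)) (pow_ne_zero _ hθG), Q.ord_pow, Q.ord_pow,
      ← hwμ i, hw, Nat.cast_sub (hμN i)]
    ring
  have hu0 : ∀ i, ω i D0 ≠ 0 := by
    intro i h0
    apply (hωG i).1
    rw [hcoord _ _ (hωsec i).1, h0, mul_zero]
  have hκ0 : κ ≠ 0 := by
    intro h0
    apply hθG
    rw [hcoord _ _ hθ, h0, zero_pow (by omega), zero_mul]
  have hord : ∀ i, Q.ord (ω i D0) = (ε i : ℤ) + N * Q.ord (θ G) - (m0 * N : ℕ) * Q.ord κ := by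
    intro i
    have h1 := (hωG i).2
    rw [hcoord _ _ (hωsec i).1, Q.ord_mul (pow_ne_zero _ hκ0) (hu0 i), Q.ord_pow] at h1
    linarith
  have hli : LinearIndependent E fun i => ω i D0 := by
    refine indep_of_ord hEQ hu0 fun i j hij h => hij ?_
    rw [hord, hord] at h
    have h1 : ((ε i : T) : ℤ) = ((ε j : T) : ℤ) := by linarith
    exact ε.injective (Subtype.ext h1)
  rw [finrank_span_eq_card hli, Fintype.card_fin] at hrk
  omega

/-- **The ramification.** The boundary of the total space is the positive part of the pull-back. -/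
theorem horReg {d r m0 : ℕ} (hE : Algebra.trdeg ℂ E = d)
    (hn : Algebra.trdeg ℂ L = (d + (r + 1) : ℕ)) [Algebra.IsAlgebraic E Λ]
    (hgenF : IntermediateField.adjoin Λ (Set.range (algebraMap L F)) = ⊤)
    (hcl : ∀ z : L, IsAlgebraic E z → z ∈ E)
    {δ : Place ℂ K → ℝ} {δV : Place ℂ L → ℝ} {δF : Place Λ F → ℝ} (hδV : IsPull δ δV)
    (hδF : IsPullFib δV δF) (hnum : PairNum Λ F (r + 1) δF 0)
    (hK : ¬ PairNeg ℂ K (d + (r + 1)) δ) (hm0 : 1 ≤ m0)
    {θ : (Fin (d + (r + 1)) → Derivation ℂ L L) → L} (hθ : IsPluri m0 θ)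
    (hreg : PReg (d + (r + 1)) m0 δV θ) :
    HorReg δ E (d + (r + 1)) m0 θ :=
  horReg_ge (Λ := Λ) (F := F) E hE hn hgenF hcl (fun P Q e h _ => (hδV P Q e h).ge) hδF hnum hK
    hm0 hθ hreg

end

end Pool.Agent.U192.PN
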