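import Pool.Agent.U192.NM.Main
import Pool.Agent.U192.PN.Hor
import Pool.Agent.U192.PN.Easy

/-!
Norms of pluricanonical forms: the main theorem for pairs.
-/

set_option autoImplicit false
set_option linter.overlappingInstances false
set_option linter.unusedSectionVars false

open FF Pool.Agent.W602.GT Pool.Agent.W603.LV Pool.Agent.W619.PQ Pool.Agent.Y172
open Pool.Agent.W619.TW (HasIndep)
open Pool.Agent.Y174 (PairSec PairKod PairNum IsPull IsPullFib LiesOn)

namespace Pool.Agent.U192.PN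

open Pool.Agent.U192.NM (trdeg_adj pow_indep dg wt pol Lv exists_basis_pol)

section

variable {K : Type} [Field K] [Algebra ℂ K]

/-- a pair with a section of a multiple of `K + Δ` has numerical dimension at least `0` -/
theorem not_neg_of_kod {n h : ℕ} {δ : Place ℂ K → ℝ} (hk : PairKod ℂ K n δ h) :
    ¬ PairNeg ℂ K n δ := by
  intro hneg
  obtain ⟨m0, hm0⟩ := hneg {1}
  obtain ⟨N, hN, ω, hω, D, hD, -⟩ := hk
  have h1 : PairSec ℂ K n δ {1} (N * m0) 1 (fun G => ω 0 G ^ m0) := by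
    refine ⟨?_, fun v hv G hG => ?_⟩
    · intro A G
      have h2 : ω 0 (fun i => ∑ j, A i j • G j) = A.det ^ N * ω 0 G := (hω 0).1 A G
      change ω 0 _ ^ m0 = _
      rw [h2, mul_pow, ← pow_mul]
    · by_cases h0 : ω 0 G ^ m0 = 0
      · exact Or.inl h0
      right
      refine ⟨1, Finset.mem_singleton_self _, one_ne_zero, ?_⟩
      rw [v.ord_one, v.ord_pow]
      rcases Nat.eq_zero_or_pos m0 with h | h
      · rw [h]
        simp
      · have h2 : ω 0 G ≠ 0 := fun h' => h0 (by rw [h', zero_pow (by omega)])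
        obtain ⟨s, hs, hs0, hle⟩ := ((hω 0).2 v hv G hG).resolve_left h2
        have h3 := mul_le_mul_of_nonneg_left hle (Nat.cast_nonneg (α := ℝ) m0)
        push_cast at h3 ⊢
        linarith
  refine hm0 (N * m0) (Nat.le_mul_of_pos_left _ hN) ⟨fun _ => fun G => ω 0 G ^ m0, ?_, fun _ => h1⟩
  rw [Fintype.linearIndependent_iff]
  intro g hg i
  have h2 := congrFun hg D
  rw [Finset.sum_apply, Fin.sum_univ_one, Pi.smul_apply, Pi.zero_apply, smul_eq_zero] at h2
  rw [Subsingleton.elim i 0]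
  exact h2.resolve_right (pow_ne_zero _ (hD 0))

theorem pairKod_mono {n h h' : ℕ} {δ : Place ℂ K → ℝ} (hk : PairKod ℂ K n δ h) (hle : h' ≤ h) :
    PairKod ℂ K n δ h' := by
  obtain ⟨m, hm, ω, hω, D, hD, hind⟩ := hk
  refine ⟨m, hm, fun l => ω (Fin.castLE (by omega) l), fun l => hω _, D, fun l => hD _, ?_⟩
  have h1 := hind.comp (Fin.castLE hle) (Fin.castLE_injective hle)
  have h2 : (fun l : Fin h' => ω (Fin.castLE (by omega) l.succ) D /
      ω (Fin.castLE (by omega) (0 : Fin (h' + 1))) D) =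
      (fun l : Fin h => ω l.succ D / ω 0 D) ∘ (Fin.castLE hle) := by
    funext l
    rfl
  rw [h2]
  exact h1

end

section

variable {L Λ F : Type} [Field L] [Field Λ] [Field F] [Algebra ℂ L]
  [Algebra.EssFiniteType ℂ L] (E : IntermediateField ℂ L)
  [Algebra E Λ] [Algebra Λ F] [Algebra L F] [IsScalarTower E Λ F] [IsScalarTower E L F]
  [Algebra ℂ Λ] [Algebra ℂ F] [IsScalarTower ℂ Λ F] [IsScalarTower ℂ L F]
  [IsScalarTower ℂ E Λ]

/-- **The ratios of sections** are constant on the fibres of a fibration whose geometric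
generic fibre has numerical dimension at most `0`. -/
theorem ratio_mem {d r m : ℕ} (hE : Algebra.trdeg ℂ E = d)
    (hn : Algebra.trdeg ℂ L = (d + (r + 1) : ℕ)) [Algebra.IsAlgebraic E Λ]
    (hgenF : IntermediateField.adjoin Λ (Set.range (algebraMap L F)) = ⊤)
    (hcl : ∀ z : L, IsAlgebraic E z → z ∈ E)
    {δV : Place ℂ L → ℝ} {δF : Place Λ F → ℝ} (hδF : IsPullFib δV δF)
    (hnum : PairNum Λ F (r + 1) δF 0) (hm : 1 ≤ m)
    {θ θ' : (Fin (d + (r + 1)) → Derivation ℂ L L) → L} (hθ : IsPluri m θ) (hθ' : IsPluri m θ')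
    (hreg : PReg (d + (r + 1)) m δV θ) (hreg' : PReg (d + (r + 1)) m δV θ')
    {D : Fin (d + (r + 1)) → Derivation ℂ L L} (hD : θ D ≠ 0) : θ' D / θ D ∈ E := by
  classical
  have hΛ0 : CharZero Λ := charZero_of_injective_algebraMap (algebraMap ℂ Λ).injective
  by_contra hcon
  obtain ⟨x, hx⟩ : ∃ x, x = θ' D / θ D := ⟨_, rfl⟩
  rw [← hx] at hcon
  have htr : Transcendental E x := fun halg => hcon (hcl x halg)
  have hess : Algebra.EssFiniteType ℂ L := inferInstance
  have hLK := Pool.Agent.Y174.trdeg_LK (L := E) hE hn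
  obtain ⟨t, ht⟩ := Pool.Agent.W636.PG.exists_basis ℂ E d hE
  obtain ⟨y, hy⟩ := Pool.Agent.W636.PG.exists_basis E L (r + 1) hLK
  have hZ := Pool.Agent.Y174.basis_append ht hy
  obtain ⟨D0, hD0⟩ := Pool.Agent.W636.PG.exists_duals ℂ L (d + (r + 1)) _ hZ
  obtain ⟨C, hC⟩ := Pool.Agent.Y174.fib_count (Λ := Λ) (F := F) hess hgenF
    (fun z hz => ⟨⟨z, hcl z hz.isAlgebraic⟩, rfl⟩) hE hn ht hy hD0 hδF hnum {1}
  have h1 : θ D = _ := pluri_coord hZ hD0 hθ D
  have h1' : θ' D = _ := pluri_coord hZ hD0 hθ' D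
  have hθ0 : θ D0 ≠ 0 := by
    intro h0
    apply hD
    rw [h1, h0, mul_zero]
  have hθ0' : θ' D0 = x * θ D0 := by
    have h2 : θ' D = x * θ D := by
      rw [hx, div_mul_cancel₀ _ hD]
    rw [h1, h1'] at h2
    have h3 : (Matrix.of fun i j => D i
      ((Fin.append (algebraMap E L ∘ t) y : Fin (d + (r + 1)) → L) j) :
      Matrix (Fin (d + (r + 1))) (Fin (d + (r + 1))) L).det ^ m ≠ 0 := by
      intro h0
      apply hD
      rw [h1, h0, zero_mul]
    refine mul_left_cancel₀ h3 ?_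
    rw [h2]
    ring
  obtain ⟨ω, hω⟩ : ∃ ω : Fin (C + 2) → (Fin (d + (r + 1)) → Derivation ℂ L L) → L,
      ∀ i, ω i = fun G => θ G ^ (C + 1 - i) * θ' G ^ (i : ℕ) := ⟨_, fun _ => rfl⟩
  have hsec : ∀ i, PairSec ℂ L (d + (r + 1)) δV {1} (m * (C + 1)) 1 (ω i) := by
    intro i
    have hi : (i : ℕ) ≤ C + 1 := Nat.lt_succ_iff.1 i.2
    rw [hω]
    refine ⟨?_, fun v hv G hG => ?_⟩
    · intro A G
      have h2 : θ (fun i => ∑ j, A i j • G j) = A.det ^ m * θ G := hθ A G
      have h3 : θ' (fun i => ∑ j, A i j • G j) = A.det ^ m * θ' G := hθ' A G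
      change θ _ ^ _ * θ' _ ^ _ = _
      have h4 : m * (C + 1) = m * (C + 1 - i) + m * i := by
        rw [← mul_add, Nat.sub_add_cancel hi]
      rw [h2, h3, h4, pow_add, mul_pow, mul_pow, ← pow_mul, ← pow_mul]
      ring
    · by_cases h0 : θ G ^ (C + 1 - i) * θ' G ^ (i : ℕ) = 0
      · exact Or.inl h0
      right
      refine ⟨1, Finset.mem_singleton_self _, one_ne_zero, ?_⟩
      have h3 : ∀ (q : ℕ) (η : (Fin (d + (r + 1)) → Derivation ℂ L L) → L),
          PReg (d + (r + 1)) m δV η → η G ^ q ≠ 0 →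
          (q : ℝ) * -(m * δV v) ≤ q * v.ord (η G) := by
        intro q η hη hq
        rcases Nat.eq_zero_or_pos q with h | h
        · rw [h]
          simp
        · have hθ0 : η G ≠ 0 := fun h' => hq (by rw [h', zero_pow (by omega)])
          exact mul_le_mul_of_nonneg_left ((hη v hv G hG).resolve_left hθ0) (Nat.cast_nonneg _)
      have h4 := h3 _ θ hreg (left_ne_zero_of_mul h0)
      have h5 := h3 _ θ' hreg' (right_ne_zero_of_mul h0)
      rw [v.ord_one, v.ord_mul (left_ne_zero_of_mul h0) (right_ne_zero_of_mul h0), v.ord_pow,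
        v.ord_pow]
      have h6 : ((C + 1 : ℕ) : ℝ) = ((C + 1 - i : ℕ) : ℝ) + ((i : ℕ) : ℝ) := by
        rw [← Nat.cast_add, Nat.sub_add_cancel hi]
      have h7 : ((m * (C + 1) : ℕ) : ℝ) * δV v =
          ((C + 1 - i : ℕ) : ℝ) * (m * δV v) + ((i : ℕ) : ℝ) * (m * δV v) := by
        rw [Nat.cast_mul, h6]
        ring
      rw [h7]
      push_cast at h4 h5 ⊢
      linarith
  have hrk := hC (m * (C + 1)) (C + 2) (Nat.mul_pos hm (Nat.succ_pos _)) ω hsec
  rw [pow_zero, mul_one] at hrk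
  have hli : LinearIndependent E fun i => ω i D0 := by
    have h2 : (fun i => ω i D0) = fun i : Fin (C + 2) => θ D0 ^ (C + 1) * x ^ (i : ℕ) := by
      funext i
      have hi : (i : ℕ) ≤ C + 1 := Nat.lt_succ_iff.1 i.2
      rw [hω]
      change θ D0 ^ (C + 1 - i) * θ' D0 ^ (i : ℕ) = _
      have h4 : θ D0 ^ (C + 1) = θ D0 ^ (C + 1 - i) * θ D0 ^ (i : ℕ) := by
        rw [← pow_add, Nat.sub_add_cancel hi]
      rw [hθ0', h4, mul_pow]
      ring
    rw [h2]
    exact pow_indep htr (pow_ne_zero _ hθ0) _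
  rw [finrank_span_eq_card hli, Fintype.card_fin] at hrk
  omega

end

section

variable {K L : Type} [Field K] [Field L] [Algebra ℂ K] [Algebra ℂ L] [Algebra K L]

/-- **Forms which are positive over the base: pairs.** `E` is the function field of the base, `δ`
the boundary downstairs and `δV` the boundary upstairs. The form `θ` is a section of `m (K + Δ)`
upstairs, and if the base is not constant along the prime divisor `Q`, which lies over the prime divisor
`P` with the ramification index `e`, then the order of `θ` along `Q` is at least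
`m (c - 1) + b Q - m e δ P`, where `c` is the multiplicity of the fibres along `Q`. -/
def BasePos (δ : Place ℂ K → ℝ) (δV : Place ℂ L → ℝ) (E : IntermediateField ℂ L) (n m : ℕ)
    (b : Place ℂ L → ℤ) (θ : (Fin n → Derivation ℂ L L) → L) : Prop :=
  PReg n m δV θ ∧ ∀ (P : Place ℂ K) (Q : Place ℂ L) (e : ℕ), Over Q P e → Divisorial n Q →
    (∃ z ∈ E, Q.ord z ≠ 0) → ∀ c : ℕ, (∀ z ∈ E, (c : ℤ) ∣ Q.ord z) →
    ∀ G : Fin n → Derivation ℂ L L, (∀ i, DerReg Q (G i)) → θ G = 0 ∨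
      (m : ℝ) * (c - 1) + b Q ≤ Q.ord (θ G) + m * e * δ P

end

section

variable {K L Λ F : Type} [Field K] [Field L] [Field Λ] [Field F] [Algebra ℂ K] [Algebra ℂ L]
  [Algebra K L] [IsScalarTower ℂ K L] [FiniteDimensional K L]
  [Algebra.EssFiniteType ℂ K] [Algebra.EssFiniteType ℂ L] (E : IntermediateField ℂ L)

/-- the norms, for a form with the right orders at all places -/
theorem kod_of_pos {δ : Place ℂ K → ℝ} {n m a : ℕ} (hm : 1 ≤ m) (hn : Algebra.trdeg ℂ L = n)
    {κ : ℕ} (X : Fin κ → Finset L) (hX : IntermediateField.adjoin ℂ (⋃ i, (X i : Set L)) = E)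
    {θ : Fin (a + 1) → (Fin n → Derivation ℂ L L) → L} (hθ : ∀ j, IsPluri m (θ j))
    (hpos : ∀ j, ∀ (P : Place ℂ K) (Q : Place ℂ L) (e : ℕ), Over Q P e → Divisorial n Q →
      (∃ z ∈ E, Q.ord z ≠ 0) → ∀ c : ℕ, (∀ z ∈ E, (c : ℤ) ∣ Q.ord z) →
      ∀ G : Fin n → Derivation ℂ L L, (∀ i, DerReg Q (G i)) → θ j G = 0 ∨
        (m : ℝ) * (c - 1) + (∑ i, 2 * m * ((dg K X i : ℤ) - 1) * pol (X i) Q : ℤ) ≤
          Q.ord (θ j G) + m * e * δ P)
    {D : Fin n → Derivation ℂ L L} (hD : θ 0 D ≠ 0)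
    (hind : AlgebraicIndependent ℂ fun j : Fin a => θ j.succ D / θ 0 D)
    (hrE : ∀ j, θ j D / θ 0 D ∈ E) (hh : HorReg δ E n m (θ 0)) :
    PairKod ℂ K n δ a := by
  classical
  have hcK : CharZero K := charZero_of_injective_algebraMap (algebraMap ℂ K).injective
  have hXE : ∀ i, ∀ z ∈ X i, z ∈ E := by
    intro i z hz
    rw [← hX]
    exact IntermediateField.subset_adjoin _ _ (Set.mem_iUnion.2 ⟨i, hz⟩)
  have hE : ∀ z ∈ E, z ∈ Lv K X κ := by
    have h1 : E ≤ (Lv K X κ).restrictScalars ℂ := by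
      rw [← hX, IntermediateField.adjoin_le_iff]
      intro z hz
      obtain ⟨i, hi⟩ := Set.mem_iUnion.1 hz
      have h2 : z ∈ Lv K X κ := by
        unfold Lv
        exact IntermediateField.subset_adjoin _ _ ⟨i, i.2, hi⟩
      exact h2
    exact fun z hz => h1 hz
  obtain ⟨dd, f, hf⟩ := exists_basis_pol K hXE hE
  let Ω := IntermediateField.normalClosure K L (AlgebraicClosure L)
  have hfin : FiniteDimensional K Ω := inferInstance
  have hnorm : Normal K Ω := inferInstance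
  have hgal : IsGalois K Ω := IsGalois.mk
  have ht1 : IsScalarTower ℂ (Lv K X κ) L := IsScalarTower.of_algebraMap_eq fun _ => rfl
  let ik : Algebra ℂ Ω := ((algebraMap L Ω).comp (algebraMap ℂ L)).toAlgebra
  have ht2 : IsScalarTower ℂ L Ω := IsScalarTower.of_algebraMap_eq fun _ => rfl
  have ht3 : IsScalarTower ℂ K Ω := IsScalarTower.of_algebraMap_eq fun c => by
    change algebraMap L Ω (algebraMap ℂ L c) = _
    rw [IsScalarTower.algebraMap_apply ℂ K L, ← IsScalarTower.algebraMap_apply K L Ω]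
  have ht4 : IsScalarTower ℂ (Lv K X κ) Ω := IsScalarTower.of_algebraMap_eq fun c => by
    change algebraMap L Ω (algebraMap ℂ L c) = _
    rw [IsScalarTower.algebraMap_apply (Lv K X κ) L Ω]
    rfl
  -- the values
  obtain ⟨y, D1, hy, hD1⟩ := exists_crd hn
  have hθval : ∀ (j : Fin (a + 1)) G, θ j G = (θ j D / θ 0 D) * θ 0 G := by
    intro j G
    have h1 := pluri_coord hy hD1 (hθ j) D
    have h2 := pluri_coord hy hD1 (hθ 0) D
    have h3 := pluri_coord hy hD1 (hθ j) G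
    have h4 := pluri_coord hy hD1 (hθ 0) G
    have h5 : (Matrix.of fun i j => D i (y j) : Matrix (Fin n) (Fin n) L).det ^ m ≠ 0 := by
      intro h0
      apply hD
      rw [h2, h0, zero_mul]
    have h6 : θ 0 D1 ≠ 0 := by
      intro h0
      apply hD
      rw [h2, h0, mul_zero]
    rw [h1, h2, h3, h4]
    field_simp
  -- the factors
  let ι : Type := {g : L // g ∈ E ∧ g ≠ 0 ∧
    VertReg δ E (Lv K X κ) n m (fun j => algebraMap (Lv K X κ) L (f j)) (θ 0) g}
  have hwt : ∀ Q : Place ℂ L, ∑ i, 2 * (m : ℤ) * ((dg K X i : ℤ) - 1) * pol (X i) Q =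
      2 * m * Pool.Agent.U192.NM.wt K X κ Q := by
    intro Q
    unfold Pool.Agent.U192.NM.wt
    rw [Finset.mul_sum]
    refine Finset.sum_congr rfl fun i _ => ?_
    rw [if_pos i.2]
    ring
  have hpos' : ∀ j, ∀ (P : Place ℂ K) (Q : Place ℂ L) (e : ℕ), Over Q P e → Divisorial n Q →
      (∃ z ∈ E, Q.ord z ≠ 0) → ∀ c : ℕ, (∀ z ∈ E, (c : ℤ) ∣ Q.ord z) →
      ∀ G : Fin n → Derivation ℂ L L, (∀ i, DerReg Q (G i)) → θ j G = 0 ∨
        (m : ℝ) * (c - 1) + 2 * m * (Pool.Agent.U192.NM.wt K X κ Q : ℤ) ≤ Q.ord (θ j G) + m * e * δ P := by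
    intro j P Q e hQ hQd hEQ c hc G hG
    rcases hpos j P Q e hQ hQd hEQ c hc G hG with h | h
    · exact Or.inl h
    · right
      rw [hwt] at h
      push_cast at h ⊢
      linarith
  have hvert : ∀ g : L, g ∈ E → g ≠ 0 → (∀ (P : Place ℂ K) (Q : Place ℂ L) (e : ℕ),
      Over Q P e → Divisorial n Q → (∃ z ∈ E, Q.ord z ≠ 0) →
      ∀ c : ℕ, (∀ z ∈ E, (c : ℤ) ∣ Q.ord z) →
      ∀ G : Fin n → Derivation ℂ L L, (∀ i, DerReg Q (G i)) → θ 0 G ≠ 0 →
      (m : ℝ) * (c - 1) + 2 * m * (Pool.Agent.U192.NM.wt K X κ Q : ℤ) ≤ Q.ord (g * θ 0 G) + m * e * δ P) →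
      VertReg δ E (Lv K X κ) n m (fun j => algebraMap (Lv K X κ) L (f j)) (θ 0) g := by
    intro g hgE hg0 hg P Q e hQ hQd hEQ c hc j G hG
    by_cases h0 : θ 0 G = 0
    · exact Or.inl h0
    right
    have h1 := hg P Q e hQ hQd hEQ c (fun z hz => hc ⟨z, hE z hz⟩) G hG h0
    rw [Q.ord_mul hg0 h0] at h1
    have h2 : algebraMap (Lv K X κ) L (f j) ≠ 0 := by
      rw [Ne, map_eq_zero]
      exact f.ne_zero j
    have h3 := ((hf j).2 Q).resolve_left h2
    have h3r : -((Pool.Agent.U192.NM.wt K X κ Q : ℤ) : ℝ) ≤ Q.ord (algebraMap (Lv K X κ) L (f j)) := by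
      exact_mod_cast h3
    have h4 := mul_le_mul_of_nonneg_left h3r (by positivity : (0 : ℝ) ≤ 2 * m)
    push_cast at h1
    linarith
  have hone : VertReg δ E (Lv K X κ) n m (fun j => algebraMap (Lv K X κ) L (f j)) (θ 0) 1 := by
    refine hvert 1 (one_mem _) one_ne_zero fun P Q e hQ hQd hEQ c hc G hG h0 => ?_
    rw [one_mul]
    exact (hpos' 0 P Q e hQ hQd hEQ c hc G hG).resolve_left h0
  refine kod_of_norm (K := K) (M := Lv K X κ) (L := L) Ω f E hm hn (fun j => (hf j).1) (hθ 0)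
    ⟨D, hD⟩ hh (ι := ι) (fun g => g.1) (fun g => g.2.1) (fun g => g.2.2.1) (fun g => g.2.2.2)
    (fun j : Fin a => θ j.succ D / θ 0 D) ?_ ⟨1, one_mem _, one_ne_zero, hone⟩ (s := 1) le_rfl ?_
  · exact trdeg_adj hind
  · intro j c hne
    refine ⟨⟨algebraMap ℂ L c - θ j.succ D / θ 0 D, ?_, hne, ?_⟩, by simp⟩
    · exact sub_mem (E.algebraMap_mem c) (hrE _)
    · refine hvert _ (sub_mem (E.algebraMap_mem c) (hrE _)) hne
        fun P Q e hQ hQd hEQ c' hc G hG h0 => ?_
      have h1 : (algebraMap ℂ L c - θ j.succ D / θ 0 D) * θ 0 G =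
          algebraMap ℂ L c * θ 0 G + -θ j.succ G := by
        rw [hθval j.succ G]
        ring
      obtain ⟨B, hB⟩ : ∃ B : ℝ, B = (m : ℝ) * (c' - 1) + 2 * m * (Pool.Agent.U192.NM.wt K X κ Q : ℤ) -
          m * e * δ P := ⟨_, rfl⟩
      have h2 : ∀ l : Fin (a + 1), Ge Q ⌈B⌉ (θ l G) := by
        intro l
        rcases hpos' l P Q e hQ hQd hEQ c' hc G hG with h3 | h3
        · exact Or.inl h3
        · right
          rw [Int.ceil_le, hB]
          linarith
      rw [h1]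
      have h3 : Ge Q ⌈B⌉ (algebraMap ℂ L c * θ 0 G + -θ j.succ G) := by
        refine Ge.add ?_ (h2 _).neg
        have h4 : Ge Q 0 (algebraMap ℂ L c) := Pool.Agent.W603.LV.Ge.const c
        have h5 := h4.mul (h2 0)
        rwa [zero_add] at h5
      have h4 := h3.resolve_left (by
        rw [← h1]
        exact mul_ne_zero hne h0)
      rw [Int.ceil_le, hB] at h4
      linarith

variable [Algebra E Λ] [Algebra Λ F] [Algebra L F] [IsScalarTower E Λ F] [IsScalarTower E L F]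
  [Algebra ℂ Λ] [Algebra ℂ F] [IsScalarTower ℂ Λ F] [IsScalarTower ℂ L F]
  [IsScalarTower ℂ E Λ]

/-- **Abundance for pairs dominated by fibre spaces.** -/
theorem abu {d r m : ℕ} (hm : 1 ≤ m) (hE : Algebra.trdeg ℂ E = d)
    (hn : Algebra.trdeg ℂ L = (d + (r + 1) : ℕ)) [Algebra.IsAlgebraic E Λ]
    (hgenF : IntermediateField.adjoin Λ (Set.range (algebraMap L F)) = ⊤)
    (hcl : ∀ z : L, IsAlgebraic E z → z ∈ E)
    {δ : Place ℂ K → ℝ} {δV : Place ℂ L → ℝ} {δF : Place Λ F → ℝ} (hδV : IsPull δ δV)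
    (hδF : IsPullFib δV δF) (hbd : DivBd (d + (r + 1)) δV)
    (hnum : PairNum Λ F (r + 1) δF 0)
    {κ : ℕ} (X : Fin κ → Finset L) (hX : IntermediateField.adjoin ℂ (⋃ i, (X i : Set L)) = E)
    {θ : Fin (d + 1) → (Fin (d + (r + 1)) → Derivation ℂ L L) → L} (hθ : ∀ j, IsPluri m (θ j))
    (hpos : ∀ j, BasePos δ δV E (d + (r + 1)) m
      (fun Q => ∑ i, 2 * m * ((dg K X i : ℤ) - 1) * pol (X i) Q) (θ j))
    {D : Fin (d + (r + 1)) → Derivation ℂ L L} (hD : θ 0 D ≠ 0)
    (hind : AlgebraicIndependent ℂ fun j : Fin d => θ j.succ D / θ 0 D) :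
    [¬ PairNeg ℂ K (d + (r + 1)) δ, PairKod ℂ K (d + (r + 1)) δ 0,
      PairKod ℂ K (d + (r + 1)) δ d, HorReg δ E (d + (r + 1)) m (θ 0)].TFAE ∧
    PairNum ℂ K (d + (r + 1)) δ d := by
  have hΛ0 : CharZero Λ := charZero_of_injective_algebraMap (algebraMap ℂ Λ).injective
  have hnK : Algebra.trdeg ℂ K = (d + (r + 1) : ℕ) := Pool.Agent.Y184.NT.trdeg_below (K := L) hn
  constructor
  · tfae_have 1 → 4 := fun h => horReg (Λ := Λ) (F := F) E hE hn hgenF hcl hδV hδF hnum h hm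
      (hθ 0) (hpos 0).1
    tfae_have 4 → 3 := fun h => kod_of_pos E hm hn X hX hθ (fun j => (hpos j).2) hD hind
      (fun j => ratio_mem (Λ := Λ) (F := F) E hE hn hgenF hcl hδF hnum hm (hθ 0) (hθ j)
        (hpos 0).1 (hpos j).1 hD) h
    tfae_have 3 → 2 := fun h => pairKod_mono h (Nat.zero_le _)
    tfae_have 2 → 1 := fun h => not_neg_of_kod h
    tfae_finish
  · have hess : Algebra.EssFiniteType ℂ E := by
      rw [IntermediateField.essFiniteType_iff, ← hX]
      classical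
      refine ⟨Finset.univ.biUnion X, ?_⟩
      congr 1
      ext z
      simp
    have h1 : PairNum ℂ L (d + (r + 1)) δV (d + 0) :=
      easy_pair (L := E) (Λ := Λ) (F := F) hess inferInstance hgenF
        (fun z hz => ⟨⟨z, hcl z hz.isAlgebraic⟩, rfl⟩) hE hn hδF hbd hnum
    exact Pool.Agent.Y174.pair_num inferInstance hnK hδV h1

end

section

variable {K L : Type} [Field K] [Field L] [Algebra ℂ K] [Algebra ℂ L]
  [Algebra K L] [IsScalarTower ℂ K L] [FiniteDimensional K L]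

/-- the positive part of the log pull-back of a bounded divisor is bounded -/
theorem divBd_pull {n : ℕ} {δ : Place ℂ K → ℝ} {δV : Place ℂ L → ℝ} (hδV : IsPull δ δV)
    (h : DivBd n δ) : DivBd n δV := by
  classical
  obtain ⟨S, hS⟩ := h
  refine ⟨insert 1 (S.image (algebraMap K L)), fun Q hQ => ?_⟩
  obtain ⟨e, P, hQP⟩ := Pool.Agent.W73.PG.PULL.exists_over' (K := K) Q
  have hP : Divisorial n P := divisorial_down hQP hQ
  obtain ⟨s, hs, hs0, hle⟩ := hS P hP
  have h1 := hδV P Q e hQP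
  have he : (1 : ℝ) ≤ e := by exact_mod_cast hQP.1
  rcases le_total (1 - (e : ℝ) * (1 - δ P)) 0 with h2 | h2
  · refine ⟨1, Finset.mem_insert_self _ _, one_ne_zero, ?_⟩
    rw [h1, max_eq_left h2, Q.ord_one]
    simp
  · refine ⟨algebraMap K L s, Finset.mem_insert_of_mem (Finset.mem_image_of_mem _ hs),
      by rwa [Ne, map_eq_zero], ?_⟩
    rw [h1, max_eq_right h2, hQP.2]
    have h3 := mul_le_mul_of_nonneg_left hle (by linarith : (0 : ℝ) ≤ e)
    push_cast
    linarith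

end

end Pool.Agent.U192.PN
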