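import Pool.Agent.U192.NM.Img
import Pool.Agent.U192.PN.Main

/-!
Norms of pluricanonical forms: nonvanishing for pairs.
-/

set_option autoImplicit false
set_option linter.overlappingInstances false
set_option linter.unusedSectionVars false

open FF Pool.Agent.W602.GT Pool.Agent.W603.LV Pool.Agent.W619.PQ Pool.Agent.Y172
open Pool.Agent.Y174 (PairSec PairKod PairNum IsPull IsPullFib LiesOn)

namespace Pool.Agent.U192.PN

open Pool.Agent.U192.NM (dg pol)

variable {K L Λ F : Type} [Field K] [Field L] [Field Λ] [Field F] [Algebra ℂ K] [Algebra ℂ L]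
  [Algebra K L] [IsScalarTower ℂ K L] [FiniteDimensional K L]
  [Algebra.EssFiniteType ℂ K] [Algebra.EssFiniteType ℂ L]

/-- **The Kodaira dimension of an image: pairs.** -/
theorem kod_img {δ : Place ℂ K → ℝ} {n m a : ℕ} (hm : 1 ≤ m) (hn : Algebra.trdeg ℂ L = n)
    {κ : ℕ} (X : Fin κ → Finset L) (hX : IntermediateField.adjoin ℂ (⋃ i, (X i : Set L)) = ⊤)
    {θ : Fin (a + 1) → (Fin n → Derivation ℂ L L) → L} (hθ : ∀ j, IsPluri m (θ j))
    (hpos : ∀ j, ∀ (P : Place ℂ K) (Q : Place ℂ L) (e : ℕ), Over Q P e → Divisorial n Q →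
      ∀ G : Fin n → Derivation ℂ L L, (∀ i, DerReg Q (G i)) → θ j G = 0 ∨
      (∑ i, 2 * m * ((dg K X i : ℤ) - 1) * pol (X i) Q : ℤ) ≤ Q.ord (θ j G) + m * e * δ P)
    {D : Fin n → Derivation ℂ L L} (hD : θ 0 D ≠ 0)
    (hind : AlgebraicIndependent ℂ fun j : Fin a => θ j.succ D / θ 0 D) :
    PairKod ℂ K n δ a := by
  refine kod_of_pos (⊤ : IntermediateField ℂ L) hm hn X hX hθ
    (fun j P Q e hQ hQd _ c hc G hG => ?_) hD hind (fun _ => IntermediateField.mem_top) ?_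
  · rcases hpos j P Q e hQ hQd G hG with h1 | h1
    · exact Or.inl h1
    right
    obtain ⟨π, -, hπ⟩ := Q.surj
    have h2 := hc π IntermediateField.mem_top
    rw [hπ] at h2
    have h3 : c = 1 := Nat.dvd_one.1 (by exact_mod_cast h2)
    rw [h3]
    simpa using h1
  · intro P Q e _ _ h
    obtain ⟨π, -, hπ⟩ := Q.surj
    have h2 := h π IntermediateField.mem_top
    omega

variable (E : IntermediateField ℂ L)
  [Algebra E Λ] [Algebra Λ F] [Algebra L F] [IsScalarTower E Λ F] [IsScalarTower E L F]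
  [Algebra ℂ Λ] [Algebra ℂ F] [IsScalarTower ℂ Λ F] [IsScalarTower ℂ L F]
  [IsScalarTower ℂ E Λ]

/-- **Nonvanishing for pairs dominated by fibre spaces.** The boundary of the total space is at least
the pull-back. -/
theorem nonvan_ge {d r m a : ℕ} (hm : 1 ≤ m) (hE : Algebra.trdeg ℂ E = d)
    (hn : Algebra.trdeg ℂ L = (d + (r + 1) : ℕ)) [Algebra.IsAlgebraic E Λ]
    (hgenF : IntermediateField.adjoin Λ (Set.range (algebraMap L F)) = ⊤)
    (hcl : ∀ z : L, IsAlgebraic E z → z ∈ E)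
    {δ : Place ℂ K → ℝ} {δV : Place ℂ L → ℝ} {δF : Place Λ F → ℝ}
    (hδV : ∀ (P : Place ℂ K) (Q : Place ℂ L) (e : ℕ), Over Q P e → Divisorial (d + (r + 1)) Q →
      max 0 (1 - e * (1 - δ P)) ≤ δV Q)
    (hδF : IsPullFib δV δF) (hnum : PairNum Λ F (r + 1) δF 0)
    {κ : ℕ} (X : Fin κ → Finset L) (hX : IntermediateField.adjoin ℂ (⋃ i, (X i : Set L)) = E)
    {θ : Fin (a + 1) → (Fin (d + (r + 1)) → Derivation ℂ L L) → L} (hθ : ∀ j, IsPluri m (θ j))
    (hpos : ∀ j, BasePos δ δV E (d + (r + 1)) m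
      (fun Q => ∑ i, 2 * m * ((dg K X i : ℤ) - 1) * pol (X i) Q) (θ j))
    {D : Fin (d + (r + 1)) → Derivation ℂ L L} (hD : θ 0 D ≠ 0)
    (hind : AlgebraicIndependent ℂ fun j : Fin a => θ j.succ D / θ 0 D) :
    [¬ PairNeg ℂ K (d + (r + 1)) δ, PairKod ℂ K (d + (r + 1)) δ 0,
      PairKod ℂ K (d + (r + 1)) δ a, HorReg δ E (d + (r + 1)) m (θ 0)].TFAE := by
  have hΛ0 : CharZero Λ := charZero_of_injective_algebraMap (algebraMap ℂ Λ).injective
  tfae_have 1 → 4 := fun h => horReg_ge (Λ := Λ) (F := F) E hE hn hgenF hcl hδV hδF hnum h hm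
    (hθ 0) (hpos 0).1
  tfae_have 4 → 3 := fun h => kod_of_pos E hm hn X hX hθ (fun j => (hpos j).2) hD hind
    (fun j => ratio_mem (Λ := Λ) (F := F) E hE hn hgenF hcl hδF hnum hm (hθ 0) (hθ j)
      (hpos 0).1 (hpos j).1 hD) h
  tfae_have 3 → 2 := fun h => pairKod_mono h (Nat.zero_le _)
  tfae_have 2 → 1 := fun h => not_neg_of_kod h
  tfae_finish

/-- **Nonvanishing for pairs dominated by fibre spaces.** -/
theorem nonvan {d r m a : ℕ} (hm : 1 ≤ m) (hE : Algebra.trdeg ℂ E = d)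
    (hn : Algebra.trdeg ℂ L = (d + (r + 1) : ℕ)) [Algebra.IsAlgebraic E Λ]
    (hgenF : IntermediateField.adjoin Λ (Set.range (algebraMap L F)) = ⊤)
    (hcl : ∀ z : L, IsAlgebraic E z → z ∈ E)
    {δ : Place ℂ K → ℝ} {δV : Place ℂ L → ℝ} {δF : Place Λ F → ℝ} (hδV : IsPull δ δV)
    (hδF : IsPullFib δV δF) (hnum : PairNum Λ F (r + 1) δF 0)
    {κ : ℕ} (X : Fin κ → Finset L) (hX : IntermediateField.adjoin ℂ (⋃ i, (X i : Set L)) = E)
    {θ : Fin (a + 1) → (Fin (d + (r + 1)) → Derivation ℂ L L) → L} (hθ : ∀ j, IsPluri m (θ j))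
    (hpos : ∀ j, BasePos δ δV E (d + (r + 1)) m
      (fun Q => ∑ i, 2 * m * ((dg K X i : ℤ) - 1) * pol (X i) Q) (θ j))
    {D : Fin (d + (r + 1)) → Derivation ℂ L L} (hD : θ 0 D ≠ 0)
    (hind : AlgebraicIndependent ℂ fun j : Fin a => θ j.succ D / θ 0 D) :
    [¬ PairNeg ℂ K (d + (r + 1)) δ, PairKod ℂ K (d + (r + 1)) δ 0,
      PairKod ℂ K (d + (r + 1)) δ a, HorReg δ E (d + (r + 1)) m (θ 0)].TFAE :=
  nonvan_ge (Λ := Λ) (F := F) E hm hE hn hgenF hcl (fun P Q e h _ => (hδV P Q e h).ge) hδF hnum X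
    hX hθ hpos hD hind

end Pool.Agent.U192.PN
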