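import Pool.Agent.U192.PN.Prod
import Pool.Agent.U192.PN.Img

/-!
Pairs dominated by a product of two varieties: the main theorem.
-/

set_option autoImplicit false
set_option linter.overlappingInstances false
set_option linter.unusedSectionVars false

open FF IntermediateField Pool.Agent.W619.PQ Pool.Agent.W603.LV Pool.Agent.Y172
open Pool.Agent.W602.GT (Divisorial DerReg IsPluri KodGe)
open Pool.Agent.Y174 (PairSec PairKod PairNum IsPull IsPullFib LiesOn resPl)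
open Pool.Agent.U192.PB (pf cz pf_change pf_pluri up pol_over closed_in indep_pow basis_over)

namespace Pool.Agent.U192.PN

section

variable {L : Type} [Field L] [Algebra ℂ L]

/-- The divisor `Δ_V` on `V = X × Y` is at most the product `X × Δ_Y` over the generic point of
`X`. -/
def IsProd (U T : IntermediateField ℂ L) (n : ℕ) (δV : Place ℂ L → ℝ) (δT : Place ℂ T → ℝ) : Prop :=
  ∀ Q : Place ℂ L, Divisorial n Q → (∀ z ∈ U, Q.ord z = 0) →
    ((∀ z ∈ T, Q.ord z = 0) → δV Q ≤ 0) ∧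
    ∀ (v : Place ℂ T) (e : ℕ), Over Q v e → δV Q ≤ max 0 (1 - e * (1 - δT v))

/-- the restriction to the generic fibre -/
theorem fib_of {U : IntermediateField ℂ L} {δV : Place ℂ L → ℝ} (h0 : ∀ Q, 0 ≤ δV Q) :
    IsPullFib δV (fun w : Place U L => δV (resPl ℂ w)) := by
  intro v w e hvw
  obtain ⟨π, hπ0, hπ⟩ := w.surj
  have h1 := hvw.2 π
  have h2 : w.ord (algebraMap L L π) = w.ord π := rfl
  rw [h2, hπ] at h1
  have h3 : (e : ℤ) = 1 := by
    have h4 : (e : ℤ) ∣ 1 := ⟨_, h1⟩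
    exact Int.eq_one_of_dvd_one (Int.natCast_nonneg e) h4
  have h4 : v = resPl ℂ w := by
    ext f
    have h5 := hvw.2 f
    rw [h3, one_mul] at h5
    exact h5.symm
  have h5 : (e : ℝ) = 1 := by exact_mod_cast h3
  change δV (resPl ℂ w) = _
  rw [← h4, h5, one_mul, sub_sub_cancel, max_eq_right (h0 v)]

/-- the numerical dimension of the generic fibre -/
theorem num_fib {U T : IntermediateField ℂ L} [Algebra.EssFiniteType ℂ L] {d r a : ℕ}
    (hsup : U ⊔ T = ⊤) (hU : Algebra.trdeg ℂ U = d)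
    (hT : Algebra.trdeg ℂ T = (r + 1 : ℕ)) (hL : Algebra.trdeg ℂ L = (d + (r + 1) : ℕ))
    {δV : Place ℂ L → ℝ} {δT : Place ℂ T → ℝ} (hδT0 : ∀ P, 0 ≤ δT P)
    (hprod : IsProd U T (d + (r + 1)) δV δT) (hYn : PairNum ℂ T (r + 1) δT a) :
    PairNum U L (r + 1) (fun w : Place U L => δV (resPl ℂ w)) a := by
  have hessL : Algebra.EssFiniteType ℂ L := inferInstance
  obtain ⟨x, hx⟩ := Pool.Agent.W636.PG.exists_basis ℂ U d hU
  have hdivF : ∀ Q : Place U L, Divisorial (r + 1) Q → Divisorial (d + (r + 1)) (resPl ℂ Q) :=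
    fun Q hQ => (Pool.Agent.Y174.exists_frame_fib hessL hL hx.1 hQ).1
  have hQU : ∀ Q : Place U L, ∀ z ∈ U, (resPl ℂ Q).ord z = 0 := by
    intro Q z hz
    by_cases h0 : z = 0
    · rw [h0]
      exact Q.ord_zero
    · have h1 : (⟨z, hz⟩ : U) ≠ 0 := fun h => h0 (congrArg Subtype.val h)
      exact Q.ord_const h1
  refine pairNum_base hsup hU hT hL (fun Q hQ hQT => ?_) (fun Q v hQ hv hQv => ?_) hYn
  · refine (hprod _ (hdivF Q hQ) (hQU Q)).1 fun z hz => ?_
    change Q.ord z = 0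
    by_cases h0 : z = 0
    · rw [h0]
      exact Q.ord_zero
    have h1 := (hQT ⟨z, hz⟩).resolve_left h0
    have h2 := (hQT ⟨z, hz⟩⁻¹).resolve_left (by
      change z⁻¹ ≠ 0
      exact inv_ne_zero h0)
    have h3 : Q.ord (((⟨z, hz⟩⁻¹ : T) : L)) = -Q.ord z := by
      change Q.ord z⁻¹ = _
      rw [Q.ord_inv]
    rw [h3] at h2
    change 0 ≤ Q.ord z at h1
    omega
  · have h1 : Over (resPl ℂ Q) v 1 := by
      refine ⟨one_pos, fun f => ?_⟩
      rw [Nat.cast_one, one_mul]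
      exact hQv f
    have h2 := (hprod _ (hdivF Q hQ) (hQU Q)).2 v 1 h1
    rw [Nat.cast_one, one_mul, sub_sub_cancel, max_eq_right (hδT0 v)] at h2
    exact h2

/-- the product boundary over the generic point of the first factor -/
theorem exists_prod (U T : IntermediateField ℂ L) (δV : Place ℂ L → ℝ) (δT : Place ℂ T → ℝ) :
    ∃ δ' : Place ℂ L → ℝ, (∀ Q, (∀ z ∈ U, Q.ord z = 0) → ∀ (v : Place ℂ T) (e : ℕ), Over Q v e →
      δ' Q = max 0 (1 - e * (1 - δT v))) ∧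
      ∀ Q, ((∃ z ∈ U, Q.ord z ≠ 0) ∨ ∀ z ∈ T, Q.ord z = 0) → δ' Q = δV Q := by
  classical
  refine ⟨fun Q => if h : (∀ z ∈ U, Q.ord z = 0) ∧ ∃ p : Place ℂ T × ℕ, Over Q p.1 p.2 then
    max 0 (1 - h.2.choose.2 * (1 - δT h.2.choose.1)) else δV Q, fun Q hQ v e hv => ?_,
    fun Q hQ => ?_⟩
  · have h : (∀ z ∈ U, Q.ord z = 0) ∧ ∃ p : Place ℂ T × ℕ, Over Q p.1 p.2 := ⟨hQ, (v, e), hv⟩
    simp only [dif_pos h]
    obtain ⟨h1, h2⟩ := Pool.Agent.Y174.liesOn_unique h.2.choose_spec hv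
    rw [h1, h2]
  · have h : ¬ ((∀ z ∈ U, Q.ord z = 0) ∧ ∃ p : Place ℂ T × ℕ, Over Q p.1 p.2) := by
      rintro ⟨h1, p, hp⟩
      rcases hQ with ⟨z, hz, hz0⟩ | hQ
      · exact hz0 (h1 z hz)
      · obtain ⟨π, hπ0, hπ⟩ := p.1.surj
        have h2 : Q.ord (π : L) = p.2 * p.1.ord π := hp.2 π
        rw [hQ π π.2, hπ] at h2
        have := hp.1
        omega
    simp only [dif_neg h]

end

section

variable {K L : Type} [Field K] [Field L] [Algebra ℂ K] [Algebra ℂ L] [Algebra K L]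
  [IsScalarTower ℂ K L] [FiniteDimensional K L] (U T : IntermediateField ℂ L)
  [Algebra.EssFiniteType ℂ U] [Algebra.EssFiniteType ℂ T]

/-- **Abundance for pairs dominated by products.** -/
theorem abu_prod {d r m : ℕ} (hm : 1 ≤ m) (hsup : U ⊔ T = ⊤) (hU : Algebra.trdeg ℂ U = d)
    (hT : Algebra.trdeg ℂ T = (r + 1 : ℕ)) (hL : Algebra.trdeg ℂ L = (d + (r + 1) : ℕ))
    {δ : Place ℂ K → ℝ} (hδ0 : ∀ P, 0 ≤ δ P) (hbd : DivBd (d + (r + 1)) δ)
    {δV : Place ℂ L → ℝ} (hδV : IsPull δ δV) {δT : Place ℂ T → ℝ} (hδT0 : ∀ P, 0 ≤ δT P)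
    (hδT1 : ∀ P, Divisorial (r + 1) P → δT P ≤ 1) (hprod : IsProd U T (d + (r + 1)) δV δT)
    (hYn : PairNum ℂ T (r + 1) δT 0) (hYk : PairKod ℂ T (r + 1) δT 0)
    {κ : ℕ} (X : Fin κ → Finset U) (hX : IntermediateField.adjoin ℂ (⋃ i, (X i : Set U)) = ⊤)
    {α : Fin (d + 1) → (Fin d → Derivation ℂ U U) → U} (hα : ∀ j, IsPluri m (α j))
    (hpos : ∀ j, ∀ P : Place ℂ U, Divisorial d P → ∀ G : Fin d → Derivation ℂ U U,
      (∀ i, DerReg P (G i)) → α j G ≠ 0 →
      ∑ i, 2 * m * ((Pool.Agent.U192.NM.dg K (up U X) i : ℤ) - 1) *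
        Pool.Agent.U192.NM.pol (X i) P ≤ P.ord (α j G))
    {G0 : Fin d → Derivation ℂ U U} (hG0 : α 0 G0 ≠ 0)
    (hind : AlgebraicIndependent ℂ fun j : Fin d => α j.succ G0 / α 0 G0) :
    [¬ PairNeg ℂ K (d + (r + 1)) δ, PairKod ℂ K (d + (r + 1)) δ 0,
      PairKod ℂ K (d + (r + 1)) δ d].TFAE ∧
    PairNum ℂ K (d + (r + 1)) δ d := by
  classical
  have hessL : Algebra.EssFiniteType ℂ L := by
    have h1 : Algebra.EssFiniteType ℂ ↥(U ⊔ T) := essFiniteType_iff.2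
      (fg_sup (essFiniteType_iff.1 inferInstance) (essFiniteType_iff.1 inferInstance))
    rw [hsup] at h1
    exact (Algebra.EssFiniteType.iff_of_algEquiv
      (IntermediateField.topEquiv (F := ℂ) (E := L))).1 h1
  have hessK : Algebra.EssFiniteType ℂ K := Pool.Agent.TH466.QG.ess_below (K := L)
  obtain ⟨N, hN, ω, hω, D1, hD1, -⟩ := hYk
  obtain ⟨x, hx⟩ := Pool.Agent.W636.PG.exists_basis ℂ U d hU
  obtain ⟨t, ht⟩ := Pool.Agent.W636.PG.exists_basis ℂ T (r + 1) hT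
  obtain ⟨Ex, hEx⟩ := Pool.Agent.W636.PG.exists_duals ℂ U d x hx
  obtain ⟨Et, hEt⟩ := Pool.Agent.W636.PG.exists_duals ℂ T (r + 1) t ht
  have hδV0 : ∀ Q : Place ℂ L, 0 ≤ δV Q := by
    intro Q
    obtain ⟨e, P, hP⟩ := Pool.Agent.W73.PG.PULL.exists_over' (K := K) Q
    rw [hδV P Q e hP]
    exact le_max_left _ _
  obtain ⟨δ', hδ'1, hδ'2⟩ := exists_prod U T δV δT
  have hδ'0 : ∀ Q : Place ℂ L, 0 ≤ δ' Q := by
    intro Q
    by_cases h1 : (∃ z ∈ U, Q.ord z ≠ 0) ∨ ∀ z ∈ T, Q.ord z = 0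
    · rw [hδ'2 Q h1]
      exact hδV0 Q
    · push Not at h1
      obtain ⟨h2, z, hz, hz0⟩ := h1
      obtain ⟨e, v, hv⟩ := exists_over (K := T) Q ⟨⟨z, hz⟩, hz0⟩
      rw [hδ'1 Q h2 v e hv]
      exact le_max_left _ _
  have hδ'ge : ∀ Q : Place ℂ L, Divisorial (d + (r + 1)) Q → δV Q ≤ δ' Q := by
    intro Q hQ
    by_cases h1 : (∃ z ∈ U, Q.ord z ≠ 0) ∨ ∀ z ∈ T, Q.ord z = 0
    · rw [hδ'2 Q h1]
    · push Not at h1
      obtain ⟨h2, z, hz, hz0⟩ := h1
      obtain ⟨e, v, hv⟩ := exists_over (K := T) Q ⟨⟨z, hz⟩, hz0⟩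
      rw [hδ'1 Q h2 v e hv]
      exact (hprod Q hQ h2).2 v e hv
  have hprod' : IsProd U T (d + (r + 1)) δ' δT := by
    intro Q hQ hQU
    refine ⟨fun hQT => ?_, fun v e hv => (hδ'1 Q hQU v e hv).le⟩
    rw [hδ'2 Q (Or.inr hQT)]
    exact (hprod Q hQ hQU).1 hQT
  -- the powers
  have hα' : ∀ j, IsPluri (m * N) fun G => α j G ^ N := fun j => pluri_pow (hα j) N
  have hβ' : IsPluri (m * N) fun G => ω 0 G ^ m := by
    have h1 := pluri_pow (hω 0).1 m
    rwa [mul_comm] at h1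
  have hdg : ∀ i, (0 : ℤ) ≤ (Pool.Agent.U192.NM.dg K (up U X) i : ℤ) - 1 := by
    intro i
    have h1 : 0 < Pool.Agent.U192.NM.dg K (up U X) i := by
      unfold Pool.Agent.U192.NM.dg
      exact Module.finrank_pos
    omega
  obtain ⟨w, hw⟩ : ∃ w : Place ℂ U → ℤ, ∀ P, w P = ∑ i, 2 * ((m * N : ℕ) : ℤ) *
      ((Pool.Agent.U192.NM.dg K (up U X) i : ℤ) - 1) * Pool.Agent.U192.NM.pol (X i) P :=
    ⟨_, fun _ => rfl⟩
  have hw0 : ∀ P, 0 ≤ w P := by
    intro P
    rw [hw]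
    refine Finset.sum_nonneg fun i _ => ?_
    have := hdg i
    positivity
  have hwQ : ∀ (Q : Place ℂ L) (P : Place ℂ U) (e : ℕ), Over Q P e →
      ∑ i, 2 * ((m * N : ℕ) : ℤ) * ((Pool.Agent.U192.NM.dg K (up U X) i : ℤ) - 1) *
        Pool.Agent.U192.NM.pol (up U X i) Q = e * w P := by
    intro Q P e hQ
    rw [hw, Finset.mul_sum]
    refine Finset.sum_congr rfl fun i _ => ?_
    unfold up
    rw [pol_over hQ]
    push_cast
    ring
  have hαw : ∀ j, ∀ P : Place ℂ U, Divisorial d P → ∀ G : Fin d → Derivation ℂ U U,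
      (∀ i, DerReg P (G i)) → α j G ^ N ≠ 0 → w P ≤ P.ord (α j G ^ N) := by
    intro j P hP G hG hne
    have h1 : α j G ≠ 0 := fun h => hne (by rw [h, zero_pow (by omega)])
    have h2 := hpos j P hP G hG h1
    rw [P.ord_pow, hw]
    have h3 := mul_le_mul_of_nonneg_left h2 (Int.natCast_nonneg N)
    refine le_trans (le_of_eq ?_) h3
    rw [Finset.mul_sum]
    refine Finset.sum_congr rfl fun i _ => ?_
    push_cast
    ring
  have hβr : ∀ P : Place ℂ T, Divisorial (r + 1) P → ∀ G : Fin (r + 1) → Derivation ℂ T T,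
      (∀ i, DerReg P (G i)) → ω 0 G ^ m = 0 ∨
        -(((m * N : ℕ) : ℝ) * δT P) ≤ (P.ord (ω 0 G ^ m) : ℝ) := by
    intro P hP G hG
    rcases (hω 0).2 P hP G hG with h | ⟨s, hs, hs0, h⟩
    · left
      rw [h, zero_pow (by omega)]
    · right
      rw [P.ord_pow]
      have h1 := mul_le_mul_of_nonneg_left h (Nat.cast_nonneg (α := ℝ) m)
      push_cast at h1 ⊢
      linarith
  have hcases := fun (j : Fin (d + 1)) (Q : Place ℂ L) (hQ : Divisorial (d + (r + 1)) Q)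
    (G : Fin (d + (r + 1)) → Derivation ℂ L L) (hG : ∀ i, DerReg Q (G i))
    (hne : pf x t (m * N) (α j Ex ^ N) (ω 0 Et ^ m) G ≠ 0) =>
    prod_ord (α := fun G => α j G ^ N) (β := fun G => ω 0 G ^ m) hU hT hL (hα' j) hβ' (hαw j)
      hδT1 hβr hx ht hEx hEt hQ hG hne
  have hbas : ∀ j, BasePos δ δ' U (d + (r + 1)) (m * N)
      (fun Q => ∑ i, 2 * ((m * N : ℕ) : ℤ) * ((Pool.Agent.U192.NM.dg K (up U X) i : ℤ) - 1) *
        Pool.Agent.U192.NM.pol (up U X i) Q) (pf x t (m * N) (α j Ex ^ N) (ω 0 Et ^ m)) := by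
    intro j
    have hmN0 : (0 : ℝ) ≤ ((m * N : ℕ) : ℝ) := Nat.cast_nonneg _
    refine ⟨fun Q hQ G hG => ?_, fun P Q e hQP hQ hnc c hc G hG => ?_⟩
    · by_cases hne : pf x t (m * N) (α j Ex ^ N) (ω 0 Et ^ m) G = 0
      · exact Or.inl hne
      right
      rcases hcases j Q hQ G hG hne with ⟨P, e, hP, hPd, h1⟩ | ⟨hU0, ⟨hT0, h1⟩ |
        ⟨P, e, hP, hPd, h1⟩⟩
      · have h2 : (0 : ℝ) ≤ ((m * N : ℕ) : ℝ) * (e - 1) := by
          refine mul_nonneg hmN0 ?_
          have : (1 : ℝ) ≤ e := by exact_mod_cast hP.1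
          linarith
        have h3 : (0 : ℝ) ≤ e * w P := by
          have := hw0 P
          exact mul_nonneg (Nat.cast_nonneg _) (by exact_mod_cast this)
        have h4 := mul_nonneg hmN0 (hδ'0 Q)
        linarith
      · have h4 := mul_nonneg hmN0 (hδ'0 Q)
        have h5 : (0 : ℝ) ≤ Q.ord (pf x t (m * N) (α j Ex ^ N) (ω 0 Et ^ m) G) := by
          exact_mod_cast h1
        linarith
      · have h2 := hδ'1 Q hU0 P e hP
        have h3 : 1 - (e : ℝ) * (1 - δT P) ≤ δ' Q := by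
          rw [h2]
          exact le_max_right _ _
        have h4 := mul_le_mul_of_nonneg_left h3 hmN0
        linarith
    · by_cases hne : pf x t (m * N) (α j Ex ^ N) (ω 0 Et ^ m) G = 0
      · exact Or.inl hne
      right
      rcases hcases j Q hQ G hG hne with ⟨P', e', hP', hPd', h1⟩ | ⟨hU0, -⟩
      · obtain ⟨π, hπ0, hπ⟩ := P'.surj
        have h2 : Q.ord (π : L) = e' * P'.ord π := hP'.2 π
        rw [hπ, mul_one] at h2
        have h3 := hc π π.2
        rw [h2] at h3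
        have h4 : c ≤ e' := Nat.le_of_dvd hP'.1 (by exact_mod_cast h3)
        have h4r : (c : ℝ) ≤ e' := by exact_mod_cast h4
        have h5 := mul_le_mul_of_nonneg_left (sub_le_sub_right h4r 1) hmN0
        have h6 : (0 : ℝ) ≤ ((m * N : ℕ) : ℝ) * e * δ P :=
          mul_nonneg (mul_nonneg hmN0 (Nat.cast_nonneg _)) (hδ0 P)
        have h7 : ((∑ i, 2 * ((m * N : ℕ) : ℤ) * ((Pool.Agent.U192.NM.dg K (up U X) i : ℤ) - 1) *
            Pool.Agent.U192.NM.pol (up U X i) Q : ℤ) : ℝ) = e' * w P' := by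
          rw [hwQ Q P' e' hP']
          push_cast
          ring
        refine le_trans (le_of_eq (congrArg (fun z : ℝ => ((m * N : ℕ) : ℝ) * (c - 1) + z) h7)) ?_
        change ((m * N : ℕ) : ℝ) * (c - 1) + (e' : ℝ) * w P' ≤ _
        linarith
      · obtain ⟨z, hz, hz0⟩ := hnc
        exact absurd (hU0 z hz) hz0
  obtain ⟨D, hD⟩ := Pool.Agent.W636.PG.exists_duals ℂ L (d + (r + 1)) (cz x t)
    (Pool.Agent.Y174.basis_append hx (basis_over hsup hU hL ht))
  have hval : ∀ a b, pf (L := L) x t (m * N) a b D = (a : L) * (b : L) := by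
    intro a b
    unfold pf
    have h1 : (Matrix.of fun i j => D i (cz x t j)).det = 1 := by
      have h2 : (Matrix.of fun i j => D i (cz x t j)) =
          (1 : Matrix (Fin (d + (r + 1))) (Fin (d + (r + 1))) L) := by
        ext i j
        rw [Matrix.of_apply, hD, Matrix.one_apply]
      rw [h2, Matrix.det_one]
    rw [h1, one_pow, one_mul]
  have hωne : ω 0 Et ≠ 0 := by
    intro h0
    apply hD1 0
    have h1 : ω 0 D1 = _ := pluri_coord ht hEt (hω 0).1 D1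
    rw [h1, h0, mul_zero]
  have hcoord : ∀ j, α j G0 = _ := fun j => pluri_coord hx hEx (hα j) G0
  have hdet0 : (Matrix.of fun i j => G0 i (x j)).det ^ m ≠ 0 := by
    intro h0
    apply hG0
    rw [hcoord 0, h0, zero_mul]
  have hαne : α 0 Ex ≠ 0 := by
    intro h0
    apply hG0
    rw [hcoord 0, h0, mul_zero]
  have hratio : ∀ j, α j Ex / α 0 Ex = α j G0 / α 0 G0 := by
    intro j
    rw [hcoord 0, hcoord j]
    field_simp
  have hmN : 1 ≤ m * N := Nat.mul_pos hm hN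
  -- the generic fibre
  have hnumV := num_fib hsup hU hT hL hδT0 hprod hYn
  have hnum' := num_fib hsup hU hT hL hδT0 hprod' hYn
  have hnK : Algebra.trdeg ℂ K = (d + (r + 1) : ℕ) := Pool.Agent.Y184.NT.trdeg_below (K := L) hL
  have hgen : IntermediateField.adjoin U (Set.range (algebraMap L L)) = ⊤ := by
    rw [eq_top_iff]
    intro z _
    exact IntermediateField.subset_adjoin _ _ ⟨z, rfl⟩
  have hclU : ∀ z : L, IsAlgebraic U z → z ∈ U := fun z hz => closed_in hsup hU hT hL hz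
  have hnumL : PairNum ℂ L (d + (r + 1)) δV (d + 0) :=
    easy_pair (L := U) (Λ := U) (F := L) inferInstance inferInstance hgen
      (fun z hz => ⟨⟨z, hclU z hz.isAlgebraic⟩, rfl⟩) hU hL (fib_of hδV0)
      (divBd_pull hδV hbd) hnumV
  refine ⟨?_, Pool.Agent.Y174.pair_num inferInstance hnK hδV hnumL⟩
  have hres := nonvan_ge (K := K) (L := L) (Λ := U) (F := L) U (d := d) (r := r) (a := d)
    (m := m * N) hmN hU hL hgen hclU (δ := δ) (δV := δ') (fun P Q e hP hQ => by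
      rw [← hδV P Q e hP]
      exact hδ'ge Q hQ) (fib_of hδ'0) hnum' (up U X) ?_
    (θ := fun j => pf x t (m * N) (α j Ex ^ N) (ω 0 Et ^ m)) (fun j => pf_pluri x t _ _ _)
    hbas (D := D) ?_ ?_
  · tfae_have 1 ↔ 2 := hres.out 0 1
    tfae_have 2 ↔ 3 := hres.out 1 2
    tfae_finish
  · have h1 := congrArg (IntermediateField.map U.val) hX
    rw [IntermediateField.adjoin_map, ← AlgHom.fieldRange_eq_map,
      IntermediateField.fieldRange_val] at h1
    refine Eq.trans ?_ h1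
    congr 1
    rw [Set.image_iUnion]
    refine Set.iUnion_congr fun i => ?_
    unfold up
    rw [Finset.coe_map]
    rfl
  · rw [hval]
    have h1 : ((α 0 Ex ^ N : U) : L) ≠ 0 := by
      rw [Ne, ZeroMemClass.coe_eq_zero]
      exact pow_ne_zero _ hαne
    have h2 : ((ω 0 Et ^ m : T) : L) ≠ 0 := by
      rw [Ne, ZeroMemClass.coe_eq_zero]
      exact pow_ne_zero _ hωne
    exact mul_ne_zero h1 h2
  · have h2 : ((ω 0 Et ^ m : T) : L) ≠ 0 := by
      rw [Ne, ZeroMemClass.coe_eq_zero]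
      exact pow_ne_zero _ hωne
    have h3 : (fun j : Fin d => pf (L := L) x t (m * N) (α j.succ Ex ^ N) (ω 0 Et ^ m) D /
        pf (L := L) x t (m * N) (α 0 Ex ^ N) (ω 0 Et ^ m) D) =
        fun j : Fin d => U.val ((α j.succ G0 / α 0 G0) ^ N) := by
      funext j
      rw [hval, hval, mul_div_mul_right _ _ h2, ← hratio, div_pow]
      rfl
    rw [h3]
    exact (indep_pow hN hind).map' (f := U.val) U.val.injective

end

end Pool.Agent.U192.PN
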