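import Pool.Agent.U192.PB.Main
import Pool.Agent.U192.PN.Base

/-!
Products of sections of pairs on the factors of a product of two varieties.
-/

set_option autoImplicit false
set_option linter.overlappingInstances false
set_option linter.unusedSectionVars false

open FF IntermediateField Pool.Agent.W619.PQ Pool.Agent.W603.LV Pool.Agent.Y172
open Pool.Agent.W602.GT (Divisorial DerReg IsPluri KodGe)
open Pool.Agent.Y174 (PairSec PairKod PairNum IsPull IsPullFib LiesOn)
open Pool.Agent.U192.PB (pf cz pf_change pf_pluri ge_det_col)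

namespace Pool.Agent.U192.PN

section

variable {k K : Type} [Field k] [Field K] [Algebra k K]

theorem det_ge_one {ι : Type*} [Fintype ι] [DecidableEq ι] (v : Place k K) (A : Matrix ι ι K)
    (j0 : ι) (c : ℤ) (hA : ∀ i j, Ge v 0 (A i j)) (h0 : ∀ i, Ge v c (A i j0)) :
    Ge v c A.det := by
  have h1 := ge_det_col v A (fun j => if j = j0 then c else 0) fun i j => by
    by_cases hj : j = j0
    · change Ge v (if j = j0 then c else 0) (A i j)
      rw [if_pos hj, hj]
      exact h0 i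
    · change Ge v (if j = j0 then c else 0) (A i j)
      rw [if_neg hj]
      exact hA i j
  rw [Finset.sum_ite_eq' Finset.univ j0 fun _ => c, if_pos (Finset.mem_univ _)] at h1
  exact h1

/-- **Two coordinates which vanish at the same place.** -/
theorem det_ge_two [CharZero k] {v : Place k K} {N : ℕ} (z : Fin N → K)
    (G : Fin N → Derivation k K K) (hG : ∀ i, DerReg v (G i)) (hz : ∀ i j, Ge v 0 (G i (z j)))
    {j1 j2 : Fin N} (hj : j1 ≠ j2) {e1 e2 : ℕ} (he1 : 0 < e1) (he2 : 0 < e2)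
    (h1 : v.ord (z j1) = e1) (h2 : v.ord (z j2) = e2) :
    Ge v ((e1 : ℤ) + e2 - 1) (Matrix.of fun i j => G i (z j)).det := by
  classical
  have hK : CharZero K := charZero_of_injective_algebraMap (algebraMap k K).injective
  obtain ⟨u1, hu1⟩ : ∃ u, u = z j1 := ⟨_, rfl⟩
  obtain ⟨u2, hu2⟩ : ∃ u, u = z j2 := ⟨_, rfl⟩
  rw [← hu1] at h1
  rw [← hu2] at h2
  have hu10 : u1 ≠ 0 := by
    intro h0
    rw [h0, v.ord_zero] at h1
    omega
  have hu20 : u2 ≠ 0 := by
    intro h0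
    rw [h0, v.ord_zero] at h2
    omega
  have he10 : (e1 : K) ≠ 0 := by
    exact_mod_cast he1.ne'
  obtain ⟨c', hc'⟩ : ∃ c' : Fin N → K, ∀ i, c' i =
      (e1 : K) * (G i u2 / u2) - (e2 : K) * (G i u1 / u1) := ⟨_, fun _ => rfl⟩
  have hc0 : ∀ i, Ge v 0 (c' i) := by
    intro i
    have hx1 : u2 ^ (e1 : ℤ) ≠ 0 := zpow_ne_zero _ hu20
    have hx2 : u1 ^ (-(e2 : ℤ)) ≠ 0 := zpow_ne_zero _ hu10
    have h3 : v.ord (u2 ^ (e1 : ℤ) * u1 ^ (-(e2 : ℤ))) = 0 := by
      rw [v.ord_mul hx1 hx2, v.ord_zpow, v.ord_zpow, h1, h2]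
      ring
    have h4 := der_unit (hG i) h3
    rw [dlog_mul (G i) hx1 hx2, dlog_zpow (G i) hu20, dlog_zpow (G i) hu10] at h4
    have h5 : c' i = ((e1 : ℤ) : K) * (G i u2 / u2) + ((-(e2 : ℤ) : ℤ) : K) * (G i u1 / u1) := by
      rw [hc']
      push_cast
      ring
    rw [h5]
    exact h4
  obtain ⟨A, hA⟩ : ∃ A : Matrix (Fin N) (Fin N) K, A = Matrix.of fun i j => G i (z j) := ⟨_, rfl⟩
  obtain ⟨B, hB⟩ : ∃ B : Matrix (Fin N) (Fin N) K, B = A.updateCol j2 c' := ⟨_, rfl⟩
  have hAeq : A = A.updateCol j2 ((u2 / (e1 : K)) •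
      fun i => (B i j2 + ((e2 : K) / u1) • B i j1)) := by
    ext i j
    rw [Matrix.updateCol_apply]
    by_cases hjj : j = j2
    · rw [if_pos hjj, hjj, Pi.smul_apply, smul_eq_mul, smul_eq_mul, hB, Matrix.updateCol_self,
        Matrix.updateCol_ne hj, hc', hA, Matrix.of_apply, Matrix.of_apply, ← hu1, ← hu2]
      field_simp
      ring
    · rw [if_neg hjj]
  have hdet : A.det = (u2 / (e1 : K)) * B.det := by
    conv_lhs => rw [hAeq]
    rw [Matrix.det_updateCol_smul]
    congr 1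
    have h3 := Matrix.det_updateCol_add_smul_self B (i := j2) (j := j1) hj.symm ((e2 : K) / u1)
    rw [← h3]
    congr 1
    ext i j
    rw [Matrix.updateCol_apply, Matrix.updateCol_apply]
    by_cases hjj : j = j2
    · rw [if_pos hjj, if_pos hjj]
    · rw [if_neg hjj, if_neg hjj, hB, Matrix.updateCol_ne hjj]
  have hBge : Ge v ((e1 : ℤ) - 1) B.det := by
    refine det_ge_one v B j1 _ (fun i j => ?_) fun i => ?_
    · rw [hB, Matrix.updateCol_apply]
      by_cases hjj : j = j2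
      · rw [if_pos hjj]
        exact hc0 i
      · rw [if_neg hjj, hA]
        exact hz i j
    · rw [hB, Matrix.updateCol_ne hj, hA, Matrix.of_apply, ← hu1]
      have h3 := ge_der_reg (hG i) u1
      rwa [h1] at h3
  have hu : Ge v (e2 : ℤ) (u2 / (e1 : K)) := by
    have h3 : u2 / (e1 : K) = algebraMap k K ((e1 : k)⁻¹) * u2 := by
      rw [map_inv₀, map_natCast]
      ring
    rw [h3]
    have h4 : Ge v 0 (algebraMap k K ((e1 : k)⁻¹)) := Ge.const _
    have h5 := h4.mul (Or.inr h2.ge : Ge v (e2 : ℤ) u2)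
    rwa [zero_add] at h5
  rw [← hA, hdet]
  exact (hu.mul hBge).mono (by linarith)

end

section

variable {L : Type} [Field L] [Algebra ℂ L]

/-- **Coordinates of a factor** at a place of the product. -/
theorem exists_chart' (M : IntermediateField ℂ L) [Algebra.EssFiniteType ℂ M] {d N : ℕ}
    (hM : Algebra.trdeg ℂ M = d)
    (hL : Algebra.trdeg ℂ L = N) {Q : Place ℂ L} (hQ : Divisorial N Q) :
    ∃ (y : Fin d → M) (E : Fin d → Derivation ℂ M M),
      IsTranscendenceBasis ℂ y ∧ (∀ i j, E i (y j) = if i = j then 1 else 0) ∧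
      (∀ j, Q.Reg (y j : L)) ∧
      ((∀ z ∈ M, Q.ord z = 0) ∨ ∃ (P : Place ℂ M) (e : ℕ) (i0 : Fin d), Over Q P e ∧
        Divisorial d P ∧ (∀ i, DerReg P (E i)) ∧ Q.ord (y i0 : L) = e) := by
  classical
  by_cases hcon : ∀ z ∈ M, Q.ord z = 0
  · obtain ⟨y, hy⟩ := Pool.Agent.W636.PG.exists_basis ℂ M d hM
    obtain ⟨E, hE⟩ := Pool.Agent.W636.PG.exists_duals ℂ M d y hy
    exact ⟨y, E, hy, hE, fun j => Or.inr (hcon _ (y j).2).ge, Or.inl hcon⟩
  · push Not at hcon
    obtain ⟨z, hz, hz0⟩ := hcon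
    obtain ⟨e, P, hP⟩ := exists_over (K := M) Q ⟨⟨z, hz⟩, hz0⟩
    have hPd : Divisorial d P := Pool.Agent.W619.Y.pDIVR.{0, 0} ℂ M L d N P Q e hM hL hP hQ
    obtain ⟨y, E, i0, hl⟩ := exists_loc hM hPd
    refine ⟨y, E, hl.bas, hl.dual, fun j => hP.reg.2 (hl.reg j),
      Or.inr ⟨P, e, i0, hP, hPd, hl.pres, ?_⟩⟩
    have h2 : Q.ord ((y i0 : M) : L) = e * P.ord (y i0) := hP.2 (y i0)
    rw [h2, hl.unif, mul_one]

end

section

variable {L : Type} [Field L] [Algebra ℂ L] {U T : IntermediateField ℂ L} {d n : ℕ}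

/-- **Products of sections.** -/
theorem prod_ord [Algebra.EssFiniteType ℂ U] [Algebra.EssFiniteType ℂ T]
    (hU : Algebra.trdeg ℂ U = d)
    (hT : Algebra.trdeg ℂ T = n) (hL : Algebra.trdeg ℂ L = (d + n : ℕ)) {m : ℕ}
    {α : (Fin d → Derivation ℂ U U) → U} (hα : IsPluri m α)
    {β : (Fin n → Derivation ℂ T T) → T} (hβ : IsPluri m β) {w : Place ℂ U → ℤ}
    (hαw : ∀ P : Place ℂ U, Divisorial d P → ∀ G : Fin d → Derivation ℂ U U,
      (∀ i, DerReg P (G i)) → α G ≠ 0 → w P ≤ P.ord (α G)) {δT : Place ℂ T → ℝ}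
    (hδT : ∀ P, Divisorial n P → δT P ≤ 1)
    (hβr : ∀ P : Place ℂ T, Divisorial n P → ∀ G : Fin n → Derivation ℂ T T,
      (∀ i, DerReg P (G i)) → β G = 0 ∨ -(m * δT P) ≤ (P.ord (β G) : ℝ))
    {x : Fin d → U} {t : Fin n → T} {Ex : Fin d → Derivation ℂ U U}
    {Et : Fin n → Derivation ℂ T T} (hx : IsTranscendenceBasis ℂ x)
    (ht : IsTranscendenceBasis ℂ t) (hEx : ∀ i j, Ex i (x j) = if i = j then 1 else 0)
    (hEt : ∀ i j, Et i (t j) = if i = j then 1 else 0)
    {Q : Place ℂ L} (hQ : Divisorial (d + n) Q) {G : Fin (d + n) → Derivation ℂ L L}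
    (hG : ∀ i, DerReg Q (G i)) (hne : pf x t m (α Ex) (β Et) G ≠ 0) :
    (∃ (P : Place ℂ U) (e : ℕ), Over Q P e ∧ Divisorial d P ∧
      (m : ℝ) * (e - 1) + e * w P ≤ Q.ord (pf x t m (α Ex) (β Et) G)) ∨
    ((∀ z ∈ U, Q.ord z = 0) ∧
      (((∀ z ∈ T, Q.ord z = 0) ∧ 0 ≤ Q.ord (pf x t m (α Ex) (β Et) G)) ∨
      ∃ (P : Place ℂ T) (e : ℕ), Over Q P e ∧ Divisorial n P ∧
        (m : ℝ) * (e - 1) - m * e * δT P ≤ Q.ord (pf x t m (α Ex) (β Et) G))) := by
  obtain ⟨y, E, hy, hE, hyr, hcase⟩ := exists_chart' U hU hL hQ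
  obtain ⟨y', E', hy', hE', hyr', hcase'⟩ := exists_chart' T hT hL hQ
  rw [pf_change hx ht hEx hEt hy hy' hE hE' hα hβ] at hne ⊢
  unfold pf at hne ⊢
  obtain ⟨δ, hδ⟩ : ∃ δ, δ = (Matrix.of fun i j => G i (cz y y' j)).det := ⟨_, rfl⟩
  rw [← hδ] at hne ⊢
  have hαne : (α E : L) ≠ 0 := fun h => hne (by rw [h]; ring)
  have hβne : (β E' : L) ≠ 0 := fun h => hne (by rw [h]; ring)
  have hprod : (α E : L) * (β E' : L) ≠ 0 := mul_ne_zero hαne hβne
  have hδne : δ ^ m ≠ 0 := fun h => hne (by rw [h, zero_mul])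
  have hord : Q.ord (δ ^ m * ((α E : L) * (β E' : L))) =
      Q.ord (δ ^ m) + (Q.ord (α E : L) + Q.ord (β E' : L)) := by
    rw [Q.ord_mul hδne hprod, Q.ord_mul hαne hβne]
  have hcz1 : ∀ l : Fin d, cz y y' (Fin.castAdd n l) = (y l : L) := fun l => Fin.append_left _ _ _
  have hcz2 : ∀ l : Fin n, cz y y' (Fin.natAdd d l) = (y' l : L) := fun l =>
    Fin.append_right _ _ _
  have hz : ∀ i j, Ge Q 0 (G i (cz y y' j)) := by
    intro i j
    refine Fin.addCases (fun l => ?_) (fun l => ?_) j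
    · rw [hcz1]
      exact hG i _ (hyr l)
    · rw [hcz2]
      exact hG i _ (hyr' l)
  have hm0 : (0 : ℝ) ≤ m := Nat.cast_nonneg m
  -- the determinant
  have hdet : ∀ c : ℤ, Ge Q c δ → (m : ℝ) * c ≤ Q.ord (δ ^ m) := by
    intro c hc
    have h1 := (hc.pow m).resolve_left hδne
    exact_mod_cast h1
  rcases hcase with hU0 | ⟨P, e, i0, hP, hPd, hPE, hi0⟩
  · right
    refine ⟨hU0, ?_⟩
    have h1 : Q.ord (α E : L) = 0 := hU0 _ (α E).2
    rcases hcase' with hT0 | ⟨P', e', i0', hP', hPd', hPE', hi0'⟩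
    · left
      refine ⟨hT0, ?_⟩
      have h2 : Q.ord (β E' : L) = 0 := hT0 _ (β E').2
      have h3 : Ge Q 0 δ := by
        rw [hδ]
        exact ge_det Q _ fun i j => hz i j
      have h4 := (h3.pow m).resolve_left hδne
      rw [mul_zero] at h4
      rw [hord, h1, h2]
      linarith
    · right
      refine ⟨P', e', hP', hPd', ?_⟩
      have h3 : Ge Q ((e' : ℤ) - 1) δ := by
        rw [hδ]
        refine det_ge_one Q _ (Fin.natAdd d i0') _ (fun i j => hz i j) fun i => ?_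
        rw [Matrix.of_apply, hcz2]
        have h4 := ge_der_reg (hG i) (y' i0' : L)
        rwa [hi0'] at h4
      have h4 := hdet _ h3
      have h5 : (Q.ord (β E' : L) : ℝ) = e' * P'.ord (β E') := by
        have : Q.ord (β E' : L) = e' * P'.ord (β E') := hP'.2 _
        exact_mod_cast this
      have h6 := (hβr P' hPd' E' hPE').resolve_left fun h => hβne (by rw [h]; rfl)
      have h7 := mul_le_mul_of_nonneg_left h6 (Nat.cast_nonneg (α := ℝ) e')
      rw [hord, h1]
      push_cast at h4 ⊢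
      rw [h5]
      linarith
  · left
    refine ⟨P, e, hP, hPd, ?_⟩
    have h1 : (Q.ord (α E : L) : ℝ) = e * P.ord (α E) := by
      have : Q.ord (α E : L) = e * P.ord (α E) := hP.2 _
      exact_mod_cast this
    have h2 := hαw P hPd E hPE fun h => hαne (by rw [h]; rfl)
    have h2r : (w P : ℝ) ≤ P.ord (α E) := by exact_mod_cast h2
    have h2' := mul_le_mul_of_nonneg_left h2r (Nat.cast_nonneg (α := ℝ) e)
    rcases hcase' with hT0 | ⟨P', e', i0', hP', hPd', hPE', hi0'⟩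
    · have h3 : Q.ord (β E' : L) = 0 := hT0 _ (β E').2
      have h4 : Ge Q ((e : ℤ) - 1) δ := by
        rw [hδ]
        refine det_ge_one Q _ (Fin.castAdd n i0) _ (fun i j => hz i j) fun i => ?_
        rw [Matrix.of_apply, hcz1]
        have h4 := ge_der_reg (hG i) (y i0 : L)
        rwa [hi0] at h4
      have h5 := hdet _ h4
      rw [hord, h3]
      push_cast at h5 ⊢
      rw [h1]
      linarith
    · have h4 : Ge Q ((e : ℤ) + e' - 1) δ := by
        rw [hδ]
        refine det_ge_two (cz y y') G hG hz (j1 := Fin.castAdd n i0) (j2 := Fin.natAdd d i0')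
          ?_ hP.1 hP'.1 ?_ ?_
        · intro h
          have h5 := congrArg Fin.val h
          rw [Fin.val_castAdd, Fin.val_natAdd] at h5
          have := i0.2
          omega
        · rw [hcz1]
          exact hi0
        · rw [hcz2]
          exact hi0'
      have h5 := hdet _ h4
      have h6 : (Q.ord (β E' : L) : ℝ) = e' * P'.ord (β E') := by
        have : Q.ord (β E' : L) = e' * P'.ord (β E') := hP'.2 _
        exact_mod_cast this
      have h7 := (hβr P' hPd' E' hPE').resolve_left fun h => hβne (by rw [h]; rfl)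
      have h8 := mul_le_mul_of_nonneg_left h7 (Nat.cast_nonneg (α := ℝ) e')
      have h9 : (m : ℝ) * e' * δT P' ≤ m * e' * 1 :=
        mul_le_mul_of_nonneg_left (hδT P' hPd') (by positivity)
      rw [hord]
      push_cast at h5 ⊢
      rw [h1, h6]
      linarith

end

end Pool.Agent.U192.PN
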